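import Mathlib

/-! The `𝕜`-space spanned by `1` and the logarithms of algebraic numbers, trivial polynomials. -/

open Polynomial

namespace MP60829e.SK

variable (𝕜 : IntermediateField ℚ ℂ)

/-- The `𝕜`-span of all logarithms of (nonzero) algebraic numbers. -/
noncomputable def LzOf : Submodule 𝕜 ℂ := Submodule.span 𝕜 {z : ℂ | IsAlgebraic ℚ (Complex.exp z)}

/-- The `𝕜`-span of `1` and all logarithms of (nonzero) algebraic numbers. -/
noncomputable def LgOf : Submodule 𝕜 ℂ := Submodule.span 𝕜 {1} ⊔ LzOf 𝕜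

theorem Lz_le_Lg : LzOf 𝕜 ≤ LgOf 𝕜 := le_sup_right

/-- The class of a complex number modulo `LgOf`. -/
noncomputable abbrev clOf : ℂ →ₗ[𝕜] ℂ ⧸ LgOf 𝕜 := (LgOf 𝕜).mkQ

/-- Polynomials `a + r X` with `r` in `𝕜`. -/
def TrivOf (f : ℂ[X]) : Prop := ∃ (a : ℂ) (r : 𝕜), f = C a + C (r : ℂ) * X

variable {𝕜}

theorem cl_eq_zero {z : ℂ} : clOf 𝕜 z = 0 ↔ z ∈ LgOf 𝕜 := by
  rw [Submodule.mkQ_apply, Submodule.Quotient.mk_eq_zero]

theorem log_mem_Lz (b : ℕ) : ((Real.log b : ℝ) : ℂ) ∈ LzOf 𝕜 := by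
  apply Submodule.subset_span
  change IsAlgebraic ℚ (Complex.exp _)
  rw [← Complex.ofReal_exp]
  rcases Nat.eq_zero_or_pos b with h | h
  · subst h
    simp only [Nat.cast_zero, Real.log_zero, Real.exp_zero, Complex.ofReal_one]
    exact isAlgebraic_one
  · rw [Real.exp_log (by exact_mod_cast h)]
    exact_mod_cast isAlgebraic_natCast b

theorem log_mem_Lg (b : ℕ) : ((Real.log b : ℝ) : ℂ) ∈ LgOf 𝕜 := Lz_le_Lg 𝕜 (log_mem_Lz b)

theorem ks_def (q : 𝕜) (x : ℂ) : q • x = (q : ℂ) * x := rfl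

theorem kp_smul (q : 𝕜) (f : ℂ[X]) : q • f = C (q : ℂ) * f := by
  rw [Algebra.smul_def]
  rfl

variable (𝕜)

/-- `𝕜`-space of the trivial polynomials. -/
noncomputable def TrivSubOf : Submodule 𝕜 ℂ[X] where
  carrier := {f | TrivOf 𝕜 f}
  add_mem' := by
    rintro f g ⟨a, r, rfl⟩ ⟨b, s, rfl⟩
    refine ⟨a + b, r + s, ?_⟩
    push_cast
    rw [C_add, C_add]
    ring
  zero_mem' := ⟨0, 0, by simp⟩
  smul_mem' := by
    rintro q f ⟨a, r, rfl⟩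
    refine ⟨q * a, q * r, ?_⟩
    rw [kp_smul]
    push_cast
    rw [C_mul, C_mul]
    ring

variable {𝕜}

theorem mem_TrivSub {f : ℂ[X]} : f ∈ TrivSubOf 𝕜 ↔ TrivOf 𝕜 f := Iff.rfl

/-- The bad integers for a space `V` of polynomials in one variable. -/
def Bad (V : Submodule 𝕜 ℂ[X]) : Set ℕ :=
  {b | ∃ f ∈ V, f.eval ((Real.log b : ℝ) : ℂ) ∈ LgOf 𝕜 ∧ ¬ TrivOf 𝕜 f}

end MP60829e.SK
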