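import Mathlib
import Pool.Agent.Lib.MP_60829e_nt.SK.Defs
import Pool.Agent.Lib.MP_60829e_nt.Rate.GridBad

/-! Spaces of differences of logarithms of primes. -/

open Finset Module

namespace MP60829e.SK

variable {𝕜 : IntermediateField ℚ ℂ} [Algebra.IsAlgebraic ℚ 𝕜]

/-- The differences of the logarithms of the primes of a row. -/
noncomputable def rowSet {t : ℕ} (q : Fin (t + 1) → ℕ) : Set ℂ :=
  Set.range fun a => ((Real.log (q a) : ℝ) : ℂ) - ((Real.log (q 0) : ℝ) : ℂ)

/-- PROOF: logarithms of distinct primes are `𝕜`-independent (unique factorisation; in the library: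
`MP60829e.Rate.log_diff_indep` in Rate/GridBad.lean gives the independence of the differences over
the algebraic numbers, restrict the scalars to `𝕜`). -/
theorem finrank_row {t : ℕ} (q : Fin (t + 1) → ℕ) (hq : ∀ a, (q a).Prime)
    (hinj : Function.Injective q) : finrank 𝕜 (Submodule.span 𝕜 (rowSet q)) = t := by
  have h1 := MP60829e.Rate.log_diff_indep t (fun a => ⟨q a, hq a⟩)
    (fun a b hab => hinj (by simpa using congrArg Subtype.val hab))
  have h2 : LinearIndependent 𝕜 (fun a : Fin t =>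
      ((Real.log (q a.succ) : ℝ) : ℂ) - ((Real.log (q 0) : ℝ) : ℂ)) := by
    rw [Fintype.linearIndependent_iff] at h1 ⊢
    intro g hg a
    have hal : ∀ a, ((g a : 𝕜) : ℂ) ∈ algebraicClosure ℚ ℂ := fun a => by
      rw [mem_algebraicClosure_iff]
      exact (Algebra.IsAlgebraic.isAlgebraic (R := ℚ) (g a)).algebraMap
    have h4 := h1 (fun a => ⟨((g a : 𝕜) : ℂ), hal a⟩) hg a
    have h5 : ((g a : 𝕜) : ℂ) = 0 := congrArg Subtype.val h4
    exact Subtype.ext h5
  have h3 : Submodule.span 𝕜 (rowSet q) = Submodule.span 𝕜 (Set.range (fun a : Fin t =>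
      ((Real.log (q a.succ) : ℝ) : ℂ) - ((Real.log (q 0) : ℝ) : ℂ))) := by
    apply le_antisymm
    · rw [Submodule.span_le]
      rintro _ ⟨a, rfl⟩
      refine Fin.cases ?_ (fun i => ?_) a
      · simp
      · exact Submodule.subset_span ⟨i, rfl⟩
    · rw [Submodule.span_le]
      rintro _ ⟨a, rfl⟩
      exact Submodule.subset_span ⟨a.succ, rfl⟩
  rw [h3, finrank_span_eq_card h2, Fintype.card_fin]

/-- PROOF: `log_mem_Lg`. -/
theorem row_le {t : ℕ} (q : Fin (t + 1) → ℕ) : Submodule.span 𝕜 (rowSet q) ≤ (LgOf 𝕜) := by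
  rw [Submodule.span_le]
  rintro _ ⟨a, rfl⟩
  exact (LgOf 𝕜).sub_mem (log_mem_Lg _) (log_mem_Lg _)

end MP60829e.SK
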