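import Mathlib
import Pool.Agent.Lib.MP_60829e_nt.SK.Adapt

/-! A bad integer kills the determinant. -/

open Finset Polynomial Module

namespace MP60829e.SK

variable {𝕜 : IntermediateField ℚ ℂ}

/-- The classes of the constant terms of the trivial elements of `V`. -/
noncomputable def cstF (V : Submodule 𝕜 ℂ[X]) : Submodule 𝕜 (ℂ ⧸ (LgOf 𝕜)) :=
  (V ⊓ (TrivSubOf 𝕜)).map ((clOf 𝕜) ∘ₗ ((Polynomial.lcoeff ℂ 0).restrictScalars 𝕜))

theorem finrank_cstF (V : Submodule 𝕜 ℂ[X]) [FiniteDimensional 𝕜 V] :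
    FiniteDimensional 𝕜 (cstF V) ∧ finrank 𝕜 (cstF V) ≤ finrank 𝕜 V := by
  have h1 : FiniteDimensional 𝕜 (V ⊓ (TrivSubOf 𝕜) : Submodule 𝕜 ℂ[X]) :=
    Submodule.finiteDimensional_of_le inf_le_left
  refine ⟨?_, ?_⟩
  · unfold cstF
    infer_instance
  · unfold cstF
    exact (Submodule.finrank_map_le _ _).trans (Submodule.finrank_mono inf_le_left)

/-- PROOF. Let `g ∈ V` be non-trivial with `g (log b) ∈ (LgOf 𝕜)`, `q` from `Adapted.span`. Then
`g - ∑ q s • f s = a + r X ∈ V`, so `(clOf 𝕜) a ∈ cstF V` and `(clOf 𝕜) (a + r log b) = (clOf 𝕜) a` (`log_mem_Lg`). So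
`∑ q s • ψ a' ((clOf 𝕜) (f s (log b))) = 0` for all `a'`, and `q ≠ 0`, as `g` is not trivial:
`Matrix.exists_vecMul_eq_zero_iff`. -/
theorem bad_det {V : Submodule 𝕜 ℂ[X]} {D m : ℕ} {f : Fin m → ℂ[X]} (hf : Adapted V D m f)
    (ψ : Fin m → Dual 𝕜 (ℂ ⧸ (LgOf 𝕜))) (hψ : ∀ a, ∀ v ∈ cstF V, ψ a v = 0) (b : ℕ) (hb : b ∈ Bad V) :
    Matrix.det (Matrix.of fun s a : Fin m =>
      ψ a ((clOf 𝕜) ((f s).eval ((Real.log b : ℝ) : ℂ)))) = 0 := by
  classical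
  obtain ⟨g, hg, hgL, hgT⟩ := hb
  obtain ⟨q, hq⟩ := hf.span g hg
  set L : ℂ := ((Real.log b : ℝ) : ℂ) with hL
  rw [← Matrix.exists_vecMul_eq_zero_iff]
  refine ⟨q, ?_, ?_⟩
  · rintro rfl
    apply hgT
    simpa using hq
  have hV : g - ∑ s, q s • f s ∈ V :=
    V.sub_mem hg (V.sum_mem fun s _ => V.smul_mem _ (hf.mem s))
  obtain ⟨a, r, har⟩ := hq
  have ha : (clOf 𝕜) a ∈ cstF V := by
    unfold cstF
    rw [Submodule.mem_map]
    refine ⟨g - ∑ s, q s • f s, ⟨hV, ⟨a, r, har⟩⟩, ?_⟩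
    rw [har]
    simp
  have hev : g.eval L - ∑ s, q s • (f s).eval L = a + r * L := by
    have h := congrArg (Polynomial.eval L) har
    rw [eval_sub, eval_finsetSum, eval_add, eval_C, eval_mul, eval_C, eval_X] at h
    rw [← h]
    congr 1
    refine Finset.sum_congr rfl fun s _ => ?_
    rw [kp_smul, eval_mul, eval_C, ks_def]
  have hcl : ∑ s, q s • (clOf 𝕜) ((f s).eval L) = - (clOf 𝕜) a := by
    have h1 : (clOf 𝕜) (g.eval L) = 0 := cl_eq_zero.2 hgL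
    have h2 : (clOf 𝕜) ((r : ℂ) * L) = 0 := by
      have : (r : ℂ) * L = r • L := by rw [ks_def]
      rw [this, map_smul, cl_eq_zero.2 (log_mem_Lg b), smul_zero]
    have h3 := congrArg (clOf 𝕜) hev
    rw [map_sub, h1, map_add, h2, add_zero, zero_sub, map_sum] at h3
    rw [← h3, neg_neg]
    refine Finset.sum_congr rfl fun s _ => ?_
    rw [map_smul]
  funext a'
  rw [Pi.zero_apply]
  change ∑ s, q s * ψ a' ((clOf 𝕜) ((f s).eval L)) = 0
  have h4 := congrArg (ψ a') hcl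
  rw [map_sum, map_neg, hψ a' _ ha, neg_zero] at h4
  rw [← h4]
  refine Finset.sum_congr rfl fun s _ => ?_
  rw [map_smul, smul_eq_mul]

end MP60829e.SK
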