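import Mathlib
import Pool.Agent.Lib.MP_60829e_nt.SK.Defs
import Pool.Agent.Lib.MP_60829e_nt.SE.Defs
import Pool.Agent.Lib.MP_60829e_nt.CBaker

/-! Coordinates of linear forms in logarithms (Baker's theorem). -/

open Module

namespace MP60829e.SK

/-- A `ℚ`-basis of the logarithms, as a family of complex numbers. -/
theorem exists_logs : ∃ (ι : Type) (b : ι → ℂ), (∀ i, IsAlgebraic ℚ (Complex.exp (b i))) ∧
    (∀ (c0 : ℂ) (c : ι →₀ ℂ), IsAlgebraic ℚ c0 → (∀ i, IsAlgebraic ℚ (c i)) →
      c0 + c.sum (fun i a => a * b i) = 0 → c0 = 0 ∧ c = 0) ∧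
    ∀ 𝕜 : IntermediateField ℚ ℂ, LzOf 𝕜 = Submodule.span 𝕜 (Set.range b) := by
  classical
  let B := Basis.ofVectorSpace ℚ MP60829e.SE.Lg
  refine ⟨_, fun i => ((B i : MP60829e.SE.Lg) : ℂ), fun i => (B i).2, ?_, ?_⟩
  · intro c0 c hc0 hc h
    have hli : LinearIndependent ℚ (fun i => ((B i : MP60829e.SE.Lg) : ℂ)) :=
      B.linearIndependent.map' MP60829e.SE.Lg.subtype (Submodule.ker_subtype _)
    have h1 := Pool.Agent.Lib.MP_60829e_nt.Bk.baker (I := {i // i ∈ c.support})
      (fun i => ((B (i : _) : MP60829e.SE.Lg) : ℂ)) (fun i => (B i).2)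
      (hli.comp _ Subtype.val_injective) c0 hc0 (fun i => c i) (fun i => hc i) (by
        rw [← h, Finsupp.sum]
        congr 1
        rw [← Finset.sum_coe_sort c.support]
        exact Finset.sum_congr rfl fun i _ => mul_comm _ _)
    refine ⟨h1.1, ?_⟩
    ext i
    by_cases hi : i ∈ c.support
    · exact h1.2 ⟨i, hi⟩
    · exact Finsupp.notMem_support_iff.1 hi
  · intro 𝕜
    unfold LzOf
    apply le_antisymm
    · rw [Submodule.span_le]
      intro z hz
      have h1 := B.mem_span (⟨z, hz⟩ : MP60829e.SE.Lg)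
      have h2 : z ∈ Submodule.span ℚ (Set.range fun i => ((B i : MP60829e.SE.Lg) : ℂ)) := by
        have h3 := Submodule.mem_map_of_mem (f := MP60829e.SE.Lg.subtype) h1
        rw [Submodule.map_span, ← Set.range_comp] at h3
        exact h3
      exact Submodule.span_le_restrictScalars ℚ 𝕜 _ h2
    · apply Submodule.span_mono
      rintro _ ⟨i, rfl⟩
      exact (B i).2

end MP60829e.SK
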