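import Mathlib
import Pool.Agent.Lib.MP_60829e_nt.SK.Defs
import Pool.Agent.Lib.MP_60829e_nt.SK.KeyBase
import Pool.Agent.Lib.MP_60829e_nt.ST.Seven

/-! Theorem S for every algebraic field: the statement used by the linear algebra. -/

open Module

namespace MP60829e.SK

variable {𝕜 : IntermediateField ℚ ℂ} [Algebra.IsAlgebraic ℚ 𝕜]

private theorem alg_coe (a : 𝕜) : IsAlgebraic ℚ (a : ℂ) :=
  (Algebra.IsAlgebraic.isAlgebraic (R := ℚ) a).algebraMap

private theorem span_QA (S : Set ℂ) {z : ℂ} (hz : z ∈ Submodule.span 𝕜 S) :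
    z ∈ Submodule.span (algebraicClosure ℚ ℂ) S := by
  induction hz using Submodule.span_induction with
  | mem x hx => exact Submodule.subset_span hx
  | zero => exact Submodule.zero_mem _
  | add x y _ _ hx hy => exact Submodule.add_mem _ hx hy
  | smul q x _ hx =>
    exact Submodule.smul_mem _ (⟨(q : ℂ), mem_algebraicClosure_iff.2 (alg_coe q)⟩ :
      algebraicClosure ℚ ℂ) hx

/-- The coefficients as complex numbers. -/
private noncomputable def up {ι : Type} (a : ι →₀ 𝕜) : ι →₀ ℂ :=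
  a.mapRange (fun t : 𝕜 => (t : ℂ)) (ZeroMemClass.coe_zero 𝕜)

omit [Algebra.IsAlgebraic ℚ 𝕜] in
private theorem up_sum {ι : Type} (b : ι → ℂ) (a : ι →₀ 𝕜) :
    Finsupp.linearCombination ℂ b (up a) = Finsupp.linearCombination 𝕜 b a := by
  rw [Finsupp.linearCombination_apply, Finsupp.linearCombination_apply, up,
    Finsupp.sum_mapRange_index (fun i => by rw [zero_smul])]
  rfl

/-- Independence over `𝕜` of linear forms in logarithms implies independence over all algebraic
numbers. -/
theorem descent {m : ℕ} (z : Fin m → ℂ) (hz : ∀ j, z j ∈ LzOf 𝕜)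
    (hli : LinearIndependent 𝕜 z) : LinearIndependent (algebraicClosure ℚ ℂ) z := by
  classical
  obtain ⟨ι, b, hb, hB, hspan⟩ := exists_logs
  have h1 : ∀ j, ∃ a : ι →₀ 𝕜, Finsupp.linearCombination 𝕜 b a = z j := by
    intro j
    have h2 := hz j
    rw [hspan, Finsupp.mem_span_range_iff_exists_finsupp] at h2
    exact h2
  choose a ha using h1
  rw [Fintype.linearIndependent_iff]
  intro β hβ
  set c : ι →₀ ℂ := ∑ j, (β j : ℂ) • up (a j) with hc
  have h2 : Finsupp.linearCombination ℂ b c = 0 := by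
    rw [hc, map_sum, ← hβ]
    refine Finset.sum_congr rfl fun j _ => ?_
    rw [map_smul, up_sum, ha]
    rfl
  have hci : ∀ i, c i = ∑ j, (β j : ℂ) * ((a j i : 𝕜) : ℂ) := by
    intro i
    rw [hc, Finsupp.finset_sum_apply]
    rfl
  have h3 := hB 0 c isAlgebraic_zero (fun i => by
    rw [hci]
    exact mem_algebraicClosure_iff.1 (sum_mem fun j _ =>
      mul_mem (β j).2 (mem_algebraicClosure_iff.2 (alg_coe (a j i))))) (by
    rw [zero_add]
    exact h2)
  have h4 : ∀ i, ∑ j, (β j : ℂ) * ((a j i : 𝕜) : ℂ) = 0 := by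
    intro i
    rw [← hci, h3.2, Finsupp.zero_apply]
  have h5 : ∀ (φ : Dual 𝕜 ℂ) (j : Fin m), φ (β j : ℂ) = 0 := by
    intro φ
    rw [Fintype.linearIndependent_iff] at hli
    apply hli
    have h6 : ∑ j, φ (β j : ℂ) • a j = 0 := by
      ext i
      rw [Finsupp.finset_sum_apply, Finsupp.zero_apply]
      have h7 := congrArg φ (h4 i)
      rw [map_sum, map_zero] at h7
      have h8 : ∑ j, (φ (β j : ℂ) • a j) i = 0 := by
        rw [← h7]
        refine Finset.sum_congr rfl fun j _ => ?_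
        have h9 : (β j : ℂ) * ((a j i : 𝕜) : ℂ) = (a j i) • (β j : ℂ) := by
          rw [ks_def, mul_comm]
        rw [h9, map_smul, Finsupp.smul_apply, smul_eq_mul, smul_eq_mul, mul_comm]
      rw [h8]
    have h7 := congrArg (Finsupp.linearCombination 𝕜 b) h6
    rw [map_sum, map_zero] at h7
    rw [← h7]
    refine Finset.sum_congr rfl fun j _ => ?_
    rw [map_smul, ha]
  intro j
  have h6 : (β j : ℂ) = 0 := (Module.forall_dual_apply_eq_zero_iff 𝕜 (β j : ℂ)).1 fun φ => h5 φ j
  exact Subtype.ext h6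

/-- For an algebraic field `𝕜` and `x` outside `𝕜` the elements `z` of a space `Z` of linear forms in
logarithms (without constant term, coefficients in `𝕜`) such that `x z` is a linear form in `1` and
logarithms with coefficients in `𝕜`, form a space of dimension at most seven. -/
theorem key_lem (Z : Submodule 𝕜 ℂ)
    [FiniteDimensional 𝕜 Z] (hZ : Z ≤ LzOf 𝕜) (x : ℂ) (hx : ∀ q : 𝕜, x ≠ q)
    (h : ∀ z ∈ Z, x * z ∈ LgOf 𝕜) : finrank 𝕜 Z ≤ 7 := by
  classical
  by_cases hxa : IsAlgebraic ℚ x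
  · -- `x` algebraic: `Z = 0`
    obtain ⟨ι, b, hb, hB, hspan⟩ := exists_logs
    have hZ0 : Z = ⊥ := by
      rw [eq_bot_iff]
      intro z hz
      have h1 := hZ hz
      rw [hspan, Finsupp.mem_span_range_iff_exists_finsupp] at h1
      obtain ⟨a, ha⟩ := h1
      have ha' : Finsupp.linearCombination 𝕜 b a = z := ha
      have h2 : x * z ∈ Submodule.span 𝕜 {(1 : ℂ)} ⊔ LzOf 𝕜 := h z hz
      obtain ⟨y, hy, w, hw, hyw⟩ := Submodule.mem_sup.1 h2
      obtain ⟨c0, rfl⟩ := Submodule.mem_span_singleton.1 hy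
      rw [hspan, Finsupp.mem_span_range_iff_exists_finsupp] at hw
      obtain ⟨c, hc⟩ := hw
      have hc' : Finsupp.linearCombination 𝕜 b c = w := hc
      have h3 := hB (-(c0 : ℂ)) (x • up a - up c) (alg_coe c0).neg (fun i =>
        (hxa.mul (alg_coe (a i))).sub (alg_coe (c i))) (by
        change -(c0 : ℂ) + Finsupp.linearCombination ℂ b (x • up a - up c) = 0
        rw [map_sub, map_smul, up_sum, up_sum, ha', hc', smul_eq_mul, ← hyw, ks_def]
        ring)
      have h4 : ∀ i, x * ((a i : 𝕜) : ℂ) = ((c i : 𝕜) : ℂ) := by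
        intro i
        have h5 := DFunLike.congr_fun h3.2 i
        have h6 : x * ((a i : 𝕜) : ℂ) - ((c i : 𝕜) : ℂ) = 0 := h5
        linear_combination h6
      have h5 : a = 0 := by
        ext i
        by_contra hne
        have hne' : ((a i : 𝕜) : ℂ) ≠ 0 := by
          intro h0
          apply hne
          rw [Finsupp.zero_apply]
          exact h0
        apply hx (c i / a i)
        push_cast
        rw [eq_div_iff hne']
        exact h4 i
      rw [Submodule.mem_bot, ← ha', h5, map_zero]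
    rw [hZ0, finrank_bot]
    omega
  · -- `x` transcendental
    by_contra hcon
    let π : Z →ₗ[𝕜] ℂ ⧸ LzOf 𝕜 := (Submodule.mkQ (LzOf 𝕜)) ∘ₗ (LinearMap.mulLeft 𝕜 x) ∘ₗ Z.subtype
    have hrange : LinearMap.range π ≤
        (Submodule.span 𝕜 {(1 : ℂ)}).map (Submodule.mkQ (LzOf 𝕜)) := by
      rintro _ ⟨z, rfl⟩
      have h1 : x * (z : ℂ) ∈ Submodule.span 𝕜 {(1 : ℂ)} ⊔ LzOf 𝕜 := h z z.2
      obtain ⟨y, hy, w, hw, hyw⟩ := Submodule.mem_sup.1 h1
      refine ⟨y, hy, ?_⟩
      change Submodule.mkQ (LzOf 𝕜) y = Submodule.mkQ (LzOf 𝕜) (x * (z : ℂ))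
      rw [← hyw, map_add]
      have : Submodule.mkQ (LzOf 𝕜) w = 0 := by
        rw [Submodule.mkQ_apply, Submodule.Quotient.mk_eq_zero]
        exact hw
      rw [this, add_zero]
    have h1fd : FiniteDimensional 𝕜 (Submodule.span 𝕜 {(1 : ℂ)}) :=
      FiniteDimensional.span_of_finite 𝕜 (Set.finite_singleton _)
    have h1 : finrank 𝕜 (LinearMap.range π) ≤ 1 := by
      refine (Submodule.finrank_mono hrange).trans ?_
      refine (Submodule.finrank_map_le _ _).trans ?_
      exact (finrank_span_singleton (K := 𝕜) (one_ne_zero : (1 : ℂ) ≠ 0)).le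
    have h2 := π.finrank_range_add_finrank_ker
    obtain ⟨f, hf⟩ := exists_linearIndependent_of_le_finrank (R := 𝕜) (M := LinearMap.ker π)
      (n := 7) (by omega)
    have hf' : LinearIndependent 𝕜 (fun j => ((f j : Z) : ℂ)) := by
      have h3 := hf.map' (LinearMap.ker π).subtype (Submodule.ker_subtype _)
      exact h3.map' Z.subtype (Submodule.ker_subtype _)
    have hz : ∀ j, ((f j : Z) : ℂ) ∈ LzOf 𝕜 := fun j => hZ (f j : Z).2
    refine MP60829e.ST.seven x hxa (fun j => ((f j : Z) : ℂ)) (fun j => span_QA _ (hz j))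
      (descent _ hz hf') (fun j => span_QA (𝕜 := 𝕜) _ ?_)
    have h3 : π (f j : Z) = 0 := (f j).2
    have h4 : Submodule.mkQ (LzOf 𝕜) (x * ((f j : Z) : ℂ)) = 0 := h3
    rw [Submodule.mkQ_apply, Submodule.Quotient.mk_eq_zero] at h4
    exact h4

end MP60829e.SK
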