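import Mathlib
import Pool.Agent.Lib.MP_60829e_nt.SK.Defs
import Pool.Agent.Lib.MP_60829e_nt.SK.KeyLem

/-! Consequence of Theorem S: multiplication by a number outside `𝕜` has large rank modulo `(LgOf 𝕜)`. -/

open Module

namespace MP60829e.SK

variable {𝕜 : IntermediateField ℚ ℂ} [Algebra.IsAlgebraic ℚ 𝕜]


theorem key_ker (Z : Submodule 𝕜 ℂ) [FiniteDimensional 𝕜 Z] (hZ : Z ≤ (LgOf 𝕜)) (x : ℂ)
    (hx : ∀ q : 𝕜, x ≠ q) (h : ∀ z ∈ Z, x * z ∈ (LgOf 𝕜)) : finrank 𝕜 Z ≤ 8 := by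
  -- the homogeneous part has codimension at most one
  let π : Z →ₗ[𝕜] ℂ ⧸ (LzOf 𝕜) := (Submodule.mkQ (LzOf 𝕜)) ∘ₗ Z.subtype
  have hrange : LinearMap.range π ≤ (Submodule.span 𝕜 {(1 : ℂ)}).map (Submodule.mkQ (LzOf 𝕜)) := by
    rintro _ ⟨z, rfl⟩
    have h1 : (z : ℂ) ∈ Submodule.span 𝕜 {(1 : ℂ)} ⊔ (LzOf 𝕜) := hZ z.2
    obtain ⟨y, hy, w, hw, hyw⟩ := Submodule.mem_sup.1 h1
    refine ⟨y, hy, ?_⟩
    change Submodule.mkQ (LzOf 𝕜) y = Submodule.mkQ (LzOf 𝕜) (z : ℂ)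
    rw [← hyw, map_add]
    have : Submodule.mkQ (LzOf 𝕜) w = 0 := by
      rw [Submodule.mkQ_apply, Submodule.Quotient.mk_eq_zero]
      exact hw
    rw [this, add_zero]
  have h1fd : FiniteDimensional 𝕜 (Submodule.span 𝕜 {(1 : ℂ)}) :=
    FiniteDimensional.span_of_finite 𝕜 (Set.finite_singleton _)
  have h1 : finrank 𝕜 (LinearMap.range π) ≤ 1 := by
    refine (Submodule.finrank_mono hrange).trans ?_
    refine (Submodule.finrank_map_le _ _).trans ?_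
    exact (finrank_span_singleton (K := 𝕜) (one_ne_zero : (1 : ℂ) ≠ 0)).le
  have h2 := π.finrank_range_add_finrank_ker
  have h3 : finrank 𝕜 (LinearMap.ker π) ≤ 7 := by
    set K : Submodule 𝕜 ℂ := (LinearMap.ker π).map Z.subtype with hK
    have h4 : finrank 𝕜 K = finrank 𝕜 (LinearMap.ker π) :=
      (Submodule.equivMapOfInjective Z.subtype Z.injective_subtype _).finrank_eq.symm
    rw [← h4]
    refine key_lem K ?_ x hx ?_
    · rintro z ⟨w, hw, rfl⟩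
      have h5 : π w = 0 := hw
      have h6 : Submodule.mkQ (LzOf 𝕜) (w : ℂ) = 0 := h5
      rw [Submodule.mkQ_apply, Submodule.Quotient.mk_eq_zero] at h6
      exact h6
    · rintro z ⟨w, hw, rfl⟩
      exact h _ w.2
  omega

/-- PROOF. Consider the linear map `Z → F`, `z ↦ (clOf 𝕜) (x * z)`; by `key_ker` (applied to the image in
`ℂ` of its kernel) the kernel has dimension at most `8`; rank-nullity. -/
theorem key_rank (Z : Submodule 𝕜 ℂ) [FiniteDimensional 𝕜 Z] (hZ : Z ≤ (LgOf 𝕜)) (x : ℂ)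
    (hx : ∀ q : 𝕜, x ≠ q) (F : Submodule 𝕜 (ℂ ⧸ (LgOf 𝕜))) [FiniteDimensional 𝕜 F]
    (h : ∀ z ∈ Z, (clOf 𝕜) (x * z) ∈ F) : finrank 𝕜 Z ≤ 8 + finrank 𝕜 F := by
  set φ : Z →ₗ[𝕜] F := (((clOf 𝕜) ∘ₗ (LinearMap.mulLeft 𝕜 x)) ∘ₗ Z.subtype).codRestrict F
    (fun z => h z z.2) with hφ
  have h1 := φ.finrank_range_add_finrank_ker
  have h2 : finrank 𝕜 (LinearMap.range φ) ≤ finrank 𝕜 F := Submodule.finrank_le _
  have h3 : finrank 𝕜 (LinearMap.ker φ) ≤ 8 := by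
    set K : Submodule 𝕜 ℂ := (LinearMap.ker φ).map Z.subtype with hK
    have h4 : finrank 𝕜 K = finrank 𝕜 (LinearMap.ker φ) :=
      (Submodule.equivMapOfInjective Z.subtype Z.injective_subtype _).finrank_eq.symm
    rw [← h4]
    refine key_ker K ?_ x hx ?_
    · rintro z ⟨w, _, rfl⟩
      exact hZ w.2
    · rintro z ⟨w, hw, rfl⟩
      have h5 : φ w = 0 := hw
      have h6 : (clOf 𝕜) (x * (w : ℂ)) = 0 := congrArg Subtype.val h5
      exact cl_eq_zero.1 h6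
  omega

end MP60829e.SK
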