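import Mathlib
import Pool.Agent.Lib.MP_60829e_nt.SK.Key
import Pool.Agent.Lib.MP_60829e_nt.SE.Amitsur

/-! Generic elements of spaces of logarithms. -/

open Module

namespace MP60829e.SK

open MP60829e.SE (amitsur)

variable {𝕜 : IntermediateField ℚ ℂ} [Algebra.IsAlgebraic ℚ 𝕜]

/-- A finite dimensional space of classes modulo `G` lifts to a finite dimensional space. -/
private theorem lift_space {V : Type*} [AddCommGroup V] [Module 𝕜 V] (G : Submodule 𝕜 V)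
    [FiniteDimensional 𝕜 G] (W : Submodule 𝕜 (V ⧸ G)) [FiniteDimensional 𝕜 W] :
    ∃ F' : Submodule 𝕜 V, FiniteDimensional 𝕜 F' ∧
      finrank 𝕜 F' ≤ finrank 𝕜 G + finrank 𝕜 W ∧ ∀ y, G.mkQ y ∈ W → y ∈ F' := by
  obtain ⟨g, hg⟩ := G.mkQ.exists_rightInverse_of_surjective G.range_mkQ
  refine ⟨G ⊔ W.map g, inferInstance, ?_, ?_⟩
  · have h1 := Submodule.finrank_add_le_finrank_add_finrank G (W.map g)
    have h2 := Submodule.finrank_map_le g W
    omega
  · intro y hy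
    have h1 : y - g (G.mkQ y) ∈ G := by
      have h2 := LinearMap.congr_fun hg (G.mkQ y)
      rw [LinearMap.comp_apply, LinearMap.id_apply] at h2
      have h3 : G.mkQ (y - g (G.mkQ y)) = 0 := by rw [map_sub, h2, sub_self]
      exact (Submodule.Quotient.mk_eq_zero G).1 h3
    have h3 : y = (y - g (G.mkQ y)) + g (G.mkQ y) := by abel
    rw [h3]
    exact Submodule.add_mem_sup h1 (Submodule.mem_map_of_mem hy)

/-- The bilinear map. -/
private noncomputable def gmap (Z E : Submodule 𝕜 ℂ) (G : Submodule 𝕜 (ℂ ⧸ (LgOf 𝕜)))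
    (C : Submodule 𝕜 E) :
    (C × E) →ₗ[𝕜] Z →ₗ[𝕜] (((ℂ ⧸ (LgOf 𝕜)) ⧸ G) × (ℂ ⧸ E)) :=
  LinearMap.mk₂ 𝕜 (fun x z => (G.mkQ ((clOf 𝕜) (((x.1 : E) : ℂ) * (z : ℂ))), E.mkQ ((x.2 : ℂ) * (z : ℂ))))
    (by
      intro x y z
      refine Prod.ext ?_ ?_
      · simp only [Prod.fst_add, Submodule.coe_add, add_mul, map_add]
      · simp only [Prod.snd_add, Submodule.coe_add, add_mul, map_add])
    (by
      intro c x z
      refine Prod.ext ?_ ?_
      · simp only [Prod.smul_fst, Submodule.coe_smul, smul_mul_assoc, map_smul]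
      · simp only [Prod.smul_snd, Submodule.coe_smul, smul_mul_assoc, map_smul])
    (by
      intro x y z
      refine Prod.ext ?_ ?_
      · simp only [Prod.fst_add, Submodule.coe_add, mul_add, map_add]
      · simp only [Prod.snd_add, Submodule.coe_add, mul_add, map_add])
    (by
      intro c x z
      refine Prod.ext ?_ ?_
      · simp only [Prod.smul_fst, Submodule.coe_smul, mul_smul_comm, map_smul]
      · simp only [Prod.smul_snd, Submodule.coe_smul, mul_smul_comm, map_smul])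

private theorem gmap_apply (Z E : Submodule 𝕜 ℂ) (G : Submodule 𝕜 (ℂ ⧸ (LgOf 𝕜)))
    (C : Submodule 𝕜 E) (x : C × E) (z : Z) :
    gmap Z E G C x z =
      (G.mkQ ((clOf 𝕜) (((x.1 : E) : ℂ) * (z : ℂ))), E.mkQ ((x.2 : ℂ) * (z : ℂ))) := rfl

/-- One generic element.
PROOF. Let `E₁` be a complement of `𝕜 · 1` in `E` and `e = finrank E₁ + finrank E ≤ 2 finrank E`.
Apply `amitsur` to `b : (E₁ × E) →ₗ Z →ₗ (ℂ ⧸ (LgOf 𝕜)) ⧸ (F ⊔ E.map (clOf 𝕜)) × (ℂ ⧸ E)`,
`b (x₁, x₂) z = (class of (clOf 𝕜) (x₁ * z), class of x₂ * z)`. Let `(x₁, x₂) ≠ 0` and `W` with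
`finrank W < e` contain all `b (x₁, x₂) z`. If `x₁ ≠ 0` then `x₁` is not rational, and `(clOf 𝕜) (x₁ z)`,
`z ∈ Z`, lies in the preimage of the first projection of `W`, of dimension
`≤ finrank F + finrank E + finrank W`; `key_rank` gives
`finrank Z ≤ 2 + finrank F + finrank E + (2 finrank E - 1)`, against `hdim`. If `x₁ = 0`, `x₂ ≠ 0`
then `z ↦ x₂ z` is injective and maps `Z` to a space of dimension `≤ finrank E + finrank W`,
against `hdim`. So there is `h ∈ Z` with `b · h` injective. If `x ∈ E`, `x h ∈ E` then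
`b (0, x) h = 0`, `x = 0`. If `x ∈ E` and `(clOf 𝕜) (x h) ∈ F ⊔ E.map (clOf 𝕜)`, write `x = q + x₁`; `q h ∈ (LgOf 𝕜)`,
so `b (x₁, 0) h = 0` and `x₁ = 0`. -/
theorem exists_generic (Z E : Submodule 𝕜 ℂ) [FiniteDimensional 𝕜 Z] [FiniteDimensional 𝕜 E]
    (hZ : Z ≤ (LgOf 𝕜)) (F : Submodule 𝕜 (ℂ ⧸ (LgOf 𝕜))) [FiniteDimensional 𝕜 F] (h1 : (1 : ℂ) ∈ E)
    (hdim : 3 * finrank 𝕜 E + finrank 𝕜 F + 9 ≤ finrank 𝕜 Z) :
    ∃ h ∈ Z, (∀ x ∈ E, x * h ∈ E → x = 0) ∧
      (∀ x ∈ E, (clOf 𝕜) (x * h) ∈ F ⊔ E.map (clOf 𝕜) → ∃ q : 𝕜, x = q) := by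
  obtain ⟨C, hC⟩ := Submodule.exists_isCompl (Submodule.span 𝕜 {(⟨1, h1⟩ : E)})
  set G : Submodule 𝕜 (ℂ ⧸ (LgOf 𝕜)) := F ⊔ E.map (clOf 𝕜) with hG
  have hGdim : finrank 𝕜 G ≤ finrank 𝕜 F + finrank 𝕜 E := by
    have e1 := Submodule.finrank_add_le_finrank_add_finrank F (E.map (clOf 𝕜))
    have e2 := Submodule.finrank_map_le (clOf 𝕜) E
    rw [← hG] at e1
    omega
  have hone : (⟨1, h1⟩ : E) ≠ 0 := by
    intro h
    exact one_ne_zero (congrArg Subtype.val h)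
  have hCdim : finrank 𝕜 C + 1 = finrank 𝕜 E := by
    have e1 := Submodule.finrank_add_eq_of_isCompl hC
    rw [finrank_span_singleton hone] at e1
    omega
  have hCrat : ∀ c : C, (∃ q : 𝕜, ((c : E) : ℂ) = q) → c = 0 := by
    rintro c ⟨q, hq⟩
    have e1 : (c : E) ∈ Submodule.span 𝕜 {(⟨1, h1⟩ : E)} := by
      rw [Submodule.mem_span_singleton]
      refine ⟨q, Subtype.ext ?_⟩
      rw [hq]
      change q • (1 : ℂ) = q
      rw [ks_def, mul_one]
    have e2 : (c : E) ∈ Submodule.span 𝕜 {(⟨1, h1⟩ : E)} ⊓ C := ⟨e1, c.2⟩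
    rw [hC.inf_eq_bot, Submodule.mem_bot] at e2
    exact Subtype.ext e2
  obtain ⟨h, hh⟩ := amitsur (gmap Z E G C) (by
    intro x hx W hW hWlt hle
    rw [Module.finrank_prod] at hWlt
    by_cases hx1 : x.1 = 0
    · have hx2 : x.2 ≠ 0 := by
        intro h
        exact hx (Prod.ext hx1 h)
      have hx2' : (x.2 : ℂ) ≠ 0 := by
        intro h
        exact hx2 (Subtype.ext h)
      set W2 : Submodule 𝕜 (ℂ ⧸ E) := W.map (LinearMap.snd 𝕜 _ _) with hW2
      have hW2dim : finrank 𝕜 W2 ≤ finrank 𝕜 W := Submodule.finrank_map_le _ W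
      obtain ⟨F', hF'fin, hF'dim, hF'⟩ := lift_space E W2
      have hmap : ∀ z : Z, (x.2 : ℂ) * (z : ℂ) ∈ F' := by
        intro z
        apply hF'
        have e1 := hle (LinearMap.mem_range_self _ z)
        rw [gmap_apply] at e1
        exact ⟨_, e1, rfl⟩
      let f : Z →ₗ[𝕜] F' :=
        ((LinearMap.mulLeft 𝕜 (x.2 : ℂ)) ∘ₗ Z.subtype).codRestrict F' hmap
      have hf : Function.Injective f := by
        intro a b hab
        have e1 : (x.2 : ℂ) * (a : ℂ) = (x.2 : ℂ) * (b : ℂ) := congrArg Subtype.val hab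
        exact Subtype.ext (mul_left_cancel₀ hx2' e1)
      have e2 := LinearMap.finrank_le_finrank_of_injective hf
      omega
    · set W1 : Submodule 𝕜 ((ℂ ⧸ (LgOf 𝕜)) ⧸ G) := W.map (LinearMap.fst 𝕜 _ _) with hW1
      have hW1dim : finrank 𝕜 W1 ≤ finrank 𝕜 W := Submodule.finrank_map_le _ W
      obtain ⟨F', hF'fin, hF'dim, hF'⟩ := lift_space G W1
      have hmap : ∀ z ∈ Z, (clOf 𝕜) (((x.1 : E) : ℂ) * z) ∈ F' := by
        intro z hz
        apply hF'
        have e1 := hle (LinearMap.mem_range_self _ (⟨z, hz⟩ : Z))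
        rw [gmap_apply] at e1
        exact ⟨_, e1, rfl⟩
      have e2 := key_rank Z hZ ((x.1 : E) : ℂ) (fun q hq => hx1 (hCrat x.1 ⟨q, hq⟩)) F' hmap
      omega)
  refine ⟨h, h.2, ?_, ?_⟩
  · intro x hx hxh
    have e1 : gmap Z E G C (0, ⟨x, hx⟩) h = gmap Z E G C 0 h := by
      rw [gmap_apply, gmap_apply]
      refine Prod.ext rfl ?_
      change E.mkQ (x * (h : ℂ)) = E.mkQ ((0 : ℂ) * (h : ℂ))
      rw [zero_mul, map_zero, ← LinearMap.mem_ker, E.ker_mkQ]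
      exact hxh
    have e2 := hh e1
    have e3 := congrArg (fun y : C × E => (y.2 : ℂ)) e2
    exact e3
  · intro x hx hxh
    have e0 : (⟨x, hx⟩ : E) ∈ Submodule.span 𝕜 {(⟨1, h1⟩ : E)} ⊔ C := by
      rw [hC.sup_eq_top]
      exact Submodule.mem_top
    obtain ⟨y, hy, c, hc, hyc⟩ := Submodule.mem_sup.1 e0
    obtain ⟨q, rfl⟩ := Submodule.mem_span_singleton.1 hy
    have hxq : (q : ℂ) + (c : ℂ) = x := by
      have e1 := congrArg Subtype.val hyc
      change q • (1 : ℂ) + (c : ℂ) = x at e1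
      rwa [ks_def, mul_one] at e1
    have e1 : gmap Z E G C (⟨c, hc⟩, 0) h = gmap Z E G C 0 h := by
      rw [gmap_apply, gmap_apply]
      refine Prod.ext ?_ rfl
      change G.mkQ ((clOf 𝕜) ((c : ℂ) * (h : ℂ))) = G.mkQ ((clOf 𝕜) ((0 : ℂ) * (h : ℂ)))
      rw [zero_mul, map_zero, map_zero, ← LinearMap.mem_ker, G.ker_mkQ]
      have e2 : (clOf 𝕜) ((c : ℂ) * (h : ℂ)) = (clOf 𝕜) (x * (h : ℂ)) := by
        rw [← hxq, add_mul, map_add]
        have e3 : (clOf 𝕜) ((q : ℂ) * (h : ℂ)) = 0 := by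
          rw [cl_eq_zero]
          have e4 := (LgOf 𝕜).smul_mem q (hZ h.2)
          rwa [ks_def] at e4
        rw [e3, zero_add]
      rw [e2]
      exact hxh
    have e2 := hh e1
    have e3 := congrArg (fun y : C × E => ((y.1 : E) : ℂ)) e2
    have e4 : (c : ℂ) = 0 := e3
    exact ⟨q, by rw [← hxq, e4, add_zero]⟩

end MP60829e.SK
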