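import Mathlib
import Pool.Agent.Lib.MP_60829e_nt.SK.Generic

/-! Generic sequences of elements of spaces of logarithms. -/

open Module

namespace MP60829e.SK

variable {𝕜 : IntermediateField ℚ ℂ} [Algebra.IsAlgebraic ℚ 𝕜]

private theorem genericSeq_sum {K : ℕ} (f : Finset (Fin (K + 1)) → ℂ) :
    ∑ B, f B = ∑ C : Finset (Fin K),
      (f (C.map (Fin.succEmb K)) + f (insert 0 (C.map (Fin.succEmb K)))) := by
  classical
  have h0 : (0 : Fin (K + 1)) ∉ (Finset.univ : Finset (Fin K)).map (Fin.succEmb K) := by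
    simp [Fin.succ_ne_zero]
  have h1 : (Finset.univ : Finset (Fin (K + 1))) =
      insert 0 ((Finset.univ : Finset (Fin K)).map (Fin.succEmb K)) := by
    ext x
    refine ⟨fun _ => ?_, fun _ => Finset.mem_univ _⟩
    refine Fin.cases ?_ (fun i => ?_) x
    · exact Finset.mem_insert_self _ _
    · exact Finset.mem_insert_of_mem (Finset.mem_map.mpr ⟨i, Finset.mem_univ _, rfl⟩)
  have hs : ∀ g : Finset (Fin (K + 1)) → ℂ,
      ∑ t ∈ ((Finset.univ : Finset (Fin K)).map (Fin.succEmb K)).powerset, g t =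
        ∑ C : Finset (Fin K), g (C.map (Fin.succEmb K)) := by
    intro g
    rw [Finset.map_eq_image, Finset.powerset_image, Finset.sum_image, Finset.powerset_univ]
    · refine Finset.sum_congr rfl fun C _ => ?_
      rw [Finset.map_eq_image]
    · intro a _ b _ hab
      exact Finset.image_injective (Fin.succEmb K).injective hab
  rw [← Finset.powerset_univ, h1, Finset.sum_powerset_insert h0, hs, hs,
    Finset.sum_add_distrib]

/-- A generic sequence.
PROOF by induction on `K`. `K = 0`: nothing to prove. `K + 1`: take `h₀ ∈ Z 0` from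
`exists_generic` for `E`, and `h₁ .. h_K` from the induction hypothesis for the rows `1 .. K` and
the space `E' = E ⊔ E.map (x ↦ x h₀)`, `finrank E' ≤ 2 finrank E`. Let `z B ∈ E` for
`B ⊆ {0, .., K}` with `(clOf 𝕜) (∑ z B h_B) ∈ F`. For `B ⊆ {1, .., K}` put
`z' B = z B + z ({0} ∪ B) h₀ ∈ E'`; then `∑ z B h_B = ∑_{B ⊆ {1..K}} z' B h_B`. By the induction
hypothesis `z' B = 0` for `2 ≤ card B`, hence `z ({0} ∪ B) h₀ = - z B ∈ E` gives
`z ({0} ∪ B) = 0 = z B`; `z' B = q` for `card B = 1`, hence `z ({0} ∪ B) h₀ = q - z B ∈ E`,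
`z ({0} ∪ B) = 0`, `z B = q` (`1 ∈ E`). For `B = ∅`: all `h_j ∈ (LgOf 𝕜)`, so
`(clOf 𝕜) (z ∅ + z {0} h₀) = (clOf 𝕜) (∑ z' B h_B) ∈ F`, so `(clOf 𝕜) (z {0} h₀) ∈ F ⊔ E.map (clOf 𝕜)` and `z {0}` is
rational. -/
theorem exists_generic_seq (F : Submodule 𝕜 (ℂ ⧸ (LgOf 𝕜))) [FiniteDimensional 𝕜 F] (K : ℕ) :
    ∀ (Z : Fin K → Submodule 𝕜 ℂ) (_ : ∀ j, FiniteDimensional 𝕜 (Z j)) (_ : ∀ j, Z j ≤ (LgOf 𝕜))
      (E : Submodule 𝕜 ℂ) (_ : FiniteDimensional 𝕜 E) (_ : (1 : ℂ) ∈ E)
      (_ : ∀ j, 3 * (2 ^ K * finrank 𝕜 E) + finrank 𝕜 F + 9 ≤ finrank 𝕜 (Z j)),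
      ∃ h : Fin K → ℂ, (∀ j, h j ∈ Z j) ∧ ∀ z : Finset (Fin K) → ℂ, (∀ B, z B ∈ E) →
        (clOf 𝕜) (∑ B, z B * ∏ j ∈ B, h j) ∈ F →
        (∀ B, 2 ≤ B.card → z B = 0) ∧ (∀ B, B.card = 1 → ∃ q : 𝕜, z B = q) := by
  classical
  induction K with
  | zero =>
    intro Z _ _ E _ _ _
    refine ⟨Fin.elim0, fun j => j.elim0, fun z _ _ => ⟨fun B hB => ?_, fun B hB => ?_⟩⟩
    · have : B = ∅ := Finset.eq_empty_of_isEmpty B
      rw [this, Finset.card_empty] at hB
      omega
    · have : B = ∅ := Finset.eq_empty_of_isEmpty B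
      rw [this, Finset.card_empty] at hB
      omega
  | succ K ih =>
    intro Z hZf hZ E hE h1 hdim
    have hf0 := hZf 0
    have hpow : 1 * finrank 𝕜 E ≤ 2 ^ (K + 1) * finrank 𝕜 E :=
      Nat.mul_le_mul_right _ Nat.one_le_two_pow
    obtain ⟨h₀, hh₀, hg1, hg2⟩ := exists_generic (Z 0) E (hZ 0) F h1
      (by have := hdim 0; omega)
    let μ : ℂ →ₗ[𝕜] ℂ := LinearMap.mulRight 𝕜 h₀
    let E' : Submodule 𝕜 ℂ := E ⊔ E.map μ
    have hEm : FiniteDimensional 𝕜 (E.map μ) := Module.Finite.map E μ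
    have hE' : FiniteDimensional 𝕜 E' := Submodule.finiteDimensional_sup _ _
    have hE'1 : (1 : ℂ) ∈ E' := Submodule.mem_sup_left h1
    have hfin : finrank 𝕜 E' ≤ 2 * finrank 𝕜 E := by
      have a1 : finrank 𝕜 E' ≤ finrank 𝕜 E + finrank 𝕜 (E.map μ) :=
        Submodule.finrank_add_le_finrank_add_finrank E (E.map μ)
      have a2 : finrank 𝕜 (E.map μ) ≤ finrank 𝕜 E := Submodule.finrank_map_le μ E
      omega
    obtain ⟨h', hh', hgen⟩ := ih (fun j => Z j.succ) (fun j => hZf _) (fun j => hZ _) E' hE' hE'1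
      (fun j => by
        have a3 := hdim j.succ
        have a4 : 2 ^ K * finrank 𝕜 E' ≤ 2 ^ (K + 1) * finrank 𝕜 E := by
          calc 2 ^ K * finrank 𝕜 E' ≤ 2 ^ K * (2 * finrank 𝕜 E) := Nat.mul_le_mul_left _ hfin
            _ = _ := by ring
        omega)
    refine ⟨Fin.cons h₀ h', fun j => ?_, fun z hz hcl => ?_⟩
    · refine Fin.cases ?_ (fun i => ?_) j
      · exact hh₀
      · exact hh' i
    have hprod : ∀ C : Finset (Fin K),
        ∏ j ∈ C.map (Fin.succEmb K), (Fin.cons h₀ h' : Fin (K + 1) → ℂ) j = ∏ j ∈ C, h' j := by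
      intro C
      rw [Finset.prod_map]
      rfl
    have hnot : ∀ C : Finset (Fin K), (0 : Fin (K + 1)) ∉ C.map (Fin.succEmb K) := by
      intro C
      simp [Fin.succ_ne_zero]
    have hprod' : ∀ C : Finset (Fin K),
        ∏ j ∈ insert 0 (C.map (Fin.succEmb K)), (Fin.cons h₀ h' : Fin (K + 1) → ℂ) j =
          h₀ * ∏ j ∈ C, h' j := by
      intro C
      rw [Finset.prod_insert (hnot C), hprod]
      rfl
    let z' : Finset (Fin K) → ℂ := fun C =>
      z (C.map (Fin.succEmb K)) + z (insert 0 (C.map (Fin.succEmb K))) * h₀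
    have hz' : ∀ C, z' C ∈ E' := fun C =>
      E'.add_mem (Submodule.mem_sup_left (hz _))
        (Submodule.mem_sup_right (Submodule.mem_map.mpr ⟨_, hz _, rfl⟩))
    have hsum : ∑ B, z B * ∏ j ∈ B, (Fin.cons h₀ h' : Fin (K + 1) → ℂ) j =
        ∑ C, z' C * ∏ j ∈ C, h' j := by
      rw [genericSeq_sum]
      refine Finset.sum_congr rfl fun C _ => ?_
      rw [hprod, hprod']
      ring
    have hcl' : (clOf 𝕜) (∑ C, z' C * ∏ j ∈ C, h' j) ∈ F := by
      rw [← hsum]
      exact hcl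
    obtain ⟨hA, hB⟩ := hgen z' hz' hcl'
    have hA' : ∀ C : Finset (Fin K), 2 ≤ C.card → z (insert 0 (C.map (Fin.succEmb K))) = 0 ∧
        z (C.map (Fin.succEmb K)) = 0 := by
      intro C hC
      have e1 : z (C.map (Fin.succEmb K)) + z (insert 0 (C.map (Fin.succEmb K))) * h₀ = 0 := hA C hC
      have e2 : z (insert 0 (C.map (Fin.succEmb K))) * h₀ ∈ E := by
        have : z (insert 0 (C.map (Fin.succEmb K))) * h₀ = -z (C.map (Fin.succEmb K)) := by
          linear_combination e1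
        rw [this]
        exact E.neg_mem (hz _)
      have e3 := hg1 _ (hz _) e2
      refine ⟨e3, ?_⟩
      rw [e3, zero_mul, add_zero] at e1
      exact e1
    have hB' : ∀ C : Finset (Fin K), C.card = 1 → z (insert 0 (C.map (Fin.succEmb K))) = 0 ∧
        ∃ q : 𝕜, z (C.map (Fin.succEmb K)) = q := by
      intro C hC
      obtain ⟨q, hq⟩ := hB C hC
      have e1 : z (C.map (Fin.succEmb K)) + z (insert 0 (C.map (Fin.succEmb K))) * h₀ = q := hq
      have hqE : (q : ℂ) ∈ E := by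
        have := E.smul_mem q h1
        rwa [ks_def, mul_one] at this
      have e2 : z (insert 0 (C.map (Fin.succEmb K))) * h₀ ∈ E := by
        have : z (insert 0 (C.map (Fin.succEmb K))) * h₀ = q - z (C.map (Fin.succEmb K)) := by
          linear_combination e1
        rw [this]
        exact E.sub_mem hqE (hz _)
      have e3 := hg1 _ (hz _) e2
      refine ⟨e3, q, ?_⟩
      rw [e3, zero_mul, add_zero] at e1
      exact e1
    have hC0 : ∃ q : 𝕜, z (insert 0 ((∅ : Finset (Fin K)).map (Fin.succEmb K))) = q := by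
      apply hg2 _ (hz _)
      have hrest : (clOf 𝕜) (∑ C, z' C * ∏ j ∈ C, h' j) = (clOf 𝕜) (z' ∅) := by
        rw [← Finset.add_sum_erase Finset.univ _ (Finset.mem_univ (∅ : Finset (Fin K))), map_add,
          Finset.prod_empty, mul_one]
        have : (clOf 𝕜) (∑ C ∈ Finset.univ.erase (∅ : Finset (Fin K)), z' C * ∏ j ∈ C, h' j) = 0 := by
          rw [map_sum]
          refine Finset.sum_eq_zero fun C hC => ?_
          have hne : C ≠ ∅ := (Finset.mem_erase.mp hC).1
          have hpos : 0 < C.card := Finset.card_pos.mpr (Finset.nonempty_iff_ne_empty.mpr hne)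
          rcases Nat.lt_or_ge C.card 2 with hlt | hge
          · have hc1 : C.card = 1 := by omega
            obtain ⟨j, rfl⟩ := Finset.card_eq_one.mp hc1
            obtain ⟨q, hq⟩ := hB _ hc1
            rw [hq, Finset.prod_singleton, cl_eq_zero]
            have := (LgOf 𝕜).smul_mem q (hZ _ (hh' j))
            rwa [ks_def] at this
          · rw [hA C hge, zero_mul, map_zero]
        rw [this, add_zero]
      rw [hrest] at hcl'
      have e1 : (clOf 𝕜) (z (insert 0 ((∅ : Finset (Fin K)).map (Fin.succEmb K))) * h₀) =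
          (clOf 𝕜) (z' ∅) - (clOf 𝕜) (z ((∅ : Finset (Fin K)).map (Fin.succEmb K))) := by
        rw [← map_sub]
        congr 1
        show _ = z _ + z _ * h₀ - z _
        ring
      rw [e1]
      exact Submodule.sub_mem _ (Submodule.mem_sup_left hcl')
        (Submodule.mem_sup_right (Submodule.mem_map_of_mem (hz _)))
    -- every set is of one of the two kinds
    have hcases : ∀ B : Finset (Fin (K + 1)), ∃ C : Finset (Fin K),
        B = C.map (Fin.succEmb K) ∨ B = insert 0 (C.map (Fin.succEmb K)) := by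
      intro B
      refine ⟨Finset.univ.filter fun j => j.succ ∈ B, ?_⟩
      by_cases h0 : (0 : Fin (K + 1)) ∈ B
      · right
        ext x
        refine Fin.cases ?_ (fun i => ?_) x
        · simp [h0]
        · simp [Fin.succ_ne_zero]
      · left
        ext x
        refine Fin.cases ?_ (fun i => ?_) x
        · simp [h0, Fin.succ_ne_zero]
        · simp
    refine ⟨fun B hBc => ?_, fun B hBc => ?_⟩
    · obtain ⟨C, rfl | rfl⟩ := hcases B
      · rw [Finset.card_map] at hBc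
        exact (hA' C hBc).2
      · rw [Finset.card_insert_of_notMem (hnot C), Finset.card_map] at hBc
        rcases Nat.lt_or_ge C.card 2 with hlt | hge
        · exact (hB' C (by omega)).1
        · exact (hA' C hge).1
    · obtain ⟨C, rfl | rfl⟩ := hcases B
      · rw [Finset.card_map] at hBc
        exact (hB' C hBc).2
      · rw [Finset.card_insert_of_notMem (hnot C), Finset.card_map] at hBc
        have hC : C = ∅ := Finset.card_eq_zero.mp (by omega)
        subst hC
        exact hC0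

/-- The same for rows indexed by any finite type.
PROOF: transport along `Fintype.equivFin J` (sets `B` go to `B.map e.toEmbedding`). -/
theorem exists_generic_fintype {J : Type} [Fintype J] [DecidableEq J] (F : Submodule 𝕜 (ℂ ⧸ (LgOf 𝕜)))
    [FiniteDimensional 𝕜 F] (Z : J → Submodule 𝕜 ℂ) (hZf : ∀ j, FiniteDimensional 𝕜 (Z j))
    (hZ : ∀ j, Z j ≤ (LgOf 𝕜)) (E : Submodule 𝕜 ℂ) [FiniteDimensional 𝕜 E] (h1 : (1 : ℂ) ∈ E)
    (hdim : ∀ j, 3 * (2 ^ Fintype.card J * finrank 𝕜 E) + finrank 𝕜 F + 9 ≤ finrank 𝕜 (Z j)) :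
    ∃ h : J → ℂ, (∀ j, h j ∈ Z j) ∧ ∀ z : Finset J → ℂ, (∀ B, z B ∈ E) →
      (clOf 𝕜) (∑ B, z B * ∏ j ∈ B, h j) ∈ F →
      (∀ B, 2 ≤ B.card → z B = 0) ∧ (∀ B, B.card = 1 → ∃ q : 𝕜, z B = q) := by
  let e : J ≃ Fin (Fintype.card J) := Fintype.equivFin J
  obtain ⟨h, hh, hgen⟩ := exists_generic_seq F (Fintype.card J) (fun i => Z (e.symm i))
    (fun i => hZf _) (fun i => hZ _) E inferInstance h1 (fun i => hdim _)
  refine ⟨fun j => h (e j), fun j => ?_, fun z hz hcl => ?_⟩
  · have := hh (e j)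
    rwa [e.symm_apply_apply] at this
  have hsum : ∑ C : Finset (Fin (Fintype.card J)), z (C.map e.symm.toEmbedding) * ∏ i ∈ C, h i =
      ∑ B : Finset J, z B * ∏ j ∈ B, h (e j) := by
    refine Fintype.sum_equiv e.symm.finsetCongr _ _ fun C => ?_
    rw [Equiv.finsetCongr_apply, Finset.prod_map]
    congr 1
    refine Finset.prod_congr rfl fun i _ => ?_
    rw [Equiv.coe_toEmbedding, e.apply_symm_apply]
  have hcl' : (clOf 𝕜) (∑ C : Finset (Fin (Fintype.card J)),
      z (C.map e.symm.toEmbedding) * ∏ i ∈ C, h i) ∈ F := by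
    rw [hsum]
    exact hcl
  obtain ⟨hA, hB⟩ := hgen (fun C => z (C.map e.symm.toEmbedding)) (fun C => hz _) hcl'
  have hmm : ∀ B : Finset J, (B.map e.toEmbedding).map e.symm.toEmbedding = B := by
    intro B
    rw [Finset.map_map]
    ext x
    simp
  refine ⟨fun B hBc => ?_, fun B hBc => ?_⟩
  · have := hA (B.map e.toEmbedding) (by rw [Finset.card_map]; exact hBc)
    simp only [hmm] at this
    exact this
  · have := hB (B.map e.toEmbedding) (by rw [Finset.card_map]; exact hBc)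
    simp only [hmm] at this
    exact this

end MP60829e.SK
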