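import Mathlib
import Pool.Agent.Lib.MP_60829e_nt.SK.Defs
import Pool.Agent.Lib.MP_60829e_nt.SK.DiffProd

/-! The multilinear form `Theta`, the top difference of a determinant. -/

open Finset Polynomial Module

namespace MP60829e.SK

open MP60829e.SE (dl)

variable {𝕜 : IntermediateField ℚ ℂ}

variable {J : Type} [Fintype J] [DecidableEq J] {m : ℕ}

/-- The top difference of the determinant `det (ψ a [f s (w + ∑_A η)])`. -/
noncomputable def Theta (ψ : Fin m → Dual 𝕜 (ℂ ⧸ (LgOf 𝕜))) (f : Fin m → ℂ[X]) (η : J → ℂ) : 𝕜 :=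
  ∑ σ : Equiv.Perm (Fin m), ((Equiv.Perm.sign σ : ℤ) : 𝕜) *
    ∑ B ∈ (univ : Finset (Fin m → Finset J)).filter
      (fun B => univ.biUnion B = univ ∧ ∀ a, (B a).card = (f (σ a)).natDegree),
      ∏ a, ψ a ((clOf 𝕜) (((f (σ a)).natDegree.factorial : ℂ) * (f (σ a)).leadingCoeff *
        ∏ j ∈ B a, η j))

end MP60829e.SK
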