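import Mathlib
import Pool.Agent.Lib.MP_60829e_nt.SK.GenericSeq
import Pool.Agent.Lib.MP_60829e_nt.SK.Adapt
import Pool.Agent.Lib.MP_60829e_nt.SK.Theta

/-! For a generic point and suitable functionals `Theta` does not vanish. -/

open Finset Polynomial Module

namespace MP60829e.SK

variable {𝕜 : IntermediateField ℚ ℂ} [Algebra.IsAlgebraic ℚ 𝕜]

/-- PROOF: extend the coordinate functional of the span (`Basis.span`, `LinearMap.exists_extend`). -/
theorem exists_dual {W ι : Type} [AddCommGroup W] [Module 𝕜 W] (v : ι → W)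
    (hv : LinearIndependent 𝕜 v) (i : ι) :
    ∃ φ : Dual 𝕜 W, φ (v i) = 1 ∧ ∀ i', i' ≠ i → φ (v i') = 0 := by
  classical
  obtain ⟨φ, hφ⟩ := LinearMap.exists_extend ((Basis.span hv).coord i)
  have key : ∀ i', φ (v i') = (Basis.span hv).coord i (Basis.span hv i') := by
    intro i'
    rw [← hφ, LinearMap.comp_apply, Submodule.subtype_apply, Basis.span_apply]
  refine ⟨φ, ?_, fun i' hi' => ?_⟩
  · rw [key, Basis.coord_apply, Basis.repr_self, Finsupp.single_eq_same]
  · rw [key, Basis.coord_apply, Basis.repr_self, Finsupp.single_eq_of_ne (Ne.symm hi')]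

variable {m : ℕ}

/-- The blocks: `natDegree (f a)` rows for every `a`. -/
abbrev Blk (f : Fin m → ℂ[X]) : Type := (a : Fin m) × Fin (f a).natDegree

/-- The vector of the pair `(s, B)`. -/
private noncomputable def vec (f : Fin m → ℂ[X]) (h : Blk f → ℂ)
    (p : Fin m × Finset (Blk f)) : ℂ :=
  ((f p.1).natDegree.factorial : ℂ) * (f p.1).leadingCoeff * ∏ j ∈ p.2, h j

/-- The index set. -/
private abbrev Idx (f : Fin m → ℂ[X]) : Type :=
  {p : Fin m × Finset (Blk f) // p.2.card = (f p.1).natDegree}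

/-- Independence of the vectors modulo `F`. -/
private theorem indep_vec {V : Submodule 𝕜 ℂ[X]} {D : ℕ} {f : Fin m → ℂ[X]} (hf : Adapted V D m f)
    (F : Submodule 𝕜 (ℂ ⧸ (LgOf 𝕜))) (h : Blk f → ℂ) (E : Submodule 𝕜 ℂ)
    (hE : ∀ s, (f s).leadingCoeff ∈ E)
    (hh : ∀ z : Finset (Blk f) → ℂ, (∀ B, z B ∈ E) →
      (clOf 𝕜) (∑ B, z B * ∏ j ∈ B, h j) ∈ F →
      (∀ B, 2 ≤ B.card → z B = 0) ∧ (∀ B, B.card = 1 → ∃ q : 𝕜, z B = q)) :
    LinearIndependent 𝕜 (fun p : Idx f => F.mkQ ((clOf 𝕜) (vec f h p.1))) := by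
  classical
  rw [Fintype.linearIndependent_iff]
  intro q hq
  set q' : Fin m × Finset (Blk f) → 𝕜 := fun p =>
    if hp : p.2.card = (f p.1).natDegree then q ⟨p, hp⟩ else 0 with hq'
  have hq0 : ∀ p : Fin m × Finset (Blk f), p.2.card ≠ (f p.1).natDegree → q' p = 0 := by
    intro p hp
    rw [hq']
    exact dif_neg hp
  have hq1 : ∀ p : Idx f, q' p.1 = q p := by
    intro p
    rw [hq']
    exact dif_pos p.2
  set z : Finset (Blk f) → ℂ := fun B =>
    ∑ s, (((q' (s, B)) * ((f s).natDegree.factorial : 𝕜) : 𝕜) : ℂ) * (f s).leadingCoeff with hz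
  have hzE : ∀ B, z B ∈ E := by
    intro B
    refine Submodule.sum_mem _ fun s _ => ?_
    have := E.smul_mem ((q' (s, B)) * ((f s).natDegree.factorial : 𝕜)) (hE s)
    rwa [ks_def] at this
  have hsum : ∑ B, z B * ∏ j ∈ B, h j = ∑ p : Idx f, q p • vec f h p.1 := by
    have e1 : ∑ p : Idx f, q p • vec f h p.1 =
        ∑ p : Fin m × Finset (Blk f), q' p • vec f h p := by
      rw [← Finset.sum_filter_add_sum_filter_not (univ : Finset (Fin m × Finset (Blk f)))
        (fun p => p.2.card = (f p.1).natDegree)]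
      rw [Finset.sum_eq_zero (s := (univ : Finset (Fin m × Finset (Blk f))).filter
        (fun p => ¬ p.2.card = (f p.1).natDegree)), add_zero]
      · rw [Finset.sum_subtype (p := fun p : Fin m × Finset (Blk f) =>
          p.2.card = (f p.1).natDegree) _ (fun x => by simp)]
        exact Finset.sum_congr rfl fun p _ => by rw [hq1]
      · intro p hp
        rw [hq0 p (Finset.mem_filter.1 hp).2, zero_smul]
    rw [e1, Fintype.sum_prod_type, Finset.sum_comm]
    refine Finset.sum_congr rfl fun B _ => ?_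
    rw [hz, Finset.sum_mul]
    refine Finset.sum_congr rfl fun s _ => ?_
    rw [ks_def, vec]
    push_cast
    ring
  have hmem : (clOf 𝕜) (∑ B, z B * ∏ j ∈ B, h j) ∈ F := by
    rw [hsum, map_sum, ← Submodule.Quotient.mk_eq_zero, ← Submodule.mkQ_apply, map_sum, ← hq]
    refine Finset.sum_congr rfl fun p _ => ?_
    rw [map_smul, map_smul]
  obtain ⟨hA, hB⟩ := hh z hzE hmem
  rintro ⟨⟨s, B⟩, hp⟩
  have hpB : B.card = (f s).natDegree := hp
  have hfac : ∀ s : Fin m, (((f s).natDegree.factorial : ℕ) : 𝕜) ≠ 0 := fun s => by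
    exact_mod_cast Nat.factorial_ne_zero _
  have hzB : z B = ∑ s ∈ univ.filter (fun s => (f s).natDegree = B.card),
      ((((q' (s, B)) * ((f s).natDegree.factorial : 𝕜) : 𝕜)) : ℂ) * (f s).leadingCoeff := by
    rw [hz, Finset.sum_filter]
    refine Finset.sum_congr rfl fun s _ => ?_
    split_ifs with hs
    · rfl
    · have : q' (s, B) = 0 := hq0 (s, B) (fun h' => hs h'.symm)
      rw [this, zero_mul]
      push_cast
      rw [zero_mul]
  have hgoal : (q' (s, B)) * ((f s).natDegree.factorial : 𝕜) = 0 := by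
    rcases Nat.lt_or_ge 1 B.card with h2 | h2
    · have := hA B h2
      rw [hzB] at this
      exact hf.ind (fun s => (q' (s, B)) * ((f s).natDegree.factorial : 𝕜)) B.card h2 this s
        hpB.symm
    · have h1 : B.card = 1 := le_antisymm h2 (hpB ▸ (hf.deg s).1)
      obtain ⟨r, hr⟩ := hB B h1
      rw [hzB, h1] at hr
      exact hf.ind1 (fun s => (q' (s, B)) * ((f s).natDegree.factorial : 𝕜)) r hr s
        (hpB.symm.trans h1)
  have := (mul_eq_zero.1 hgoal).resolve_right (hfac s)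
  rw [← hq1 ⟨(s, B), hp⟩]
  exact this

/-- The canonical block. -/
private def B0 (f : Fin m → ℂ[X]) (a : Fin m) : Finset (Blk f) :=
  (univ : Finset (Fin (f a).natDegree)).map ⟨fun i => ⟨a, i⟩, fun i i' h => by simpa using h⟩

private theorem card_B0 (f : Fin m → ℂ[X]) (a : Fin m) : (B0 f a).card = (f a).natDegree := by
  rw [B0, Finset.card_map, Finset.card_univ, Fintype.card_fin]

private theorem biUnion_B0 (f : Fin m → ℂ[X]) :
    (univ : Finset (Fin m)).biUnion (B0 f) = univ := by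
  ext ⟨a, i⟩
  simp only [Finset.mem_biUnion, Finset.mem_univ, true_and, iff_true]
  exact ⟨a, Finset.mem_map.2 ⟨i, Finset.mem_univ _, rfl⟩⟩

/-- PROOF. Let `E` be the span of `1` and the leading coefficients, `finrank E ≤ m + 1`, and `h` from
`exists_generic_fintype`. The vectors `v (s, B) = (clOf 𝕜) (d! * lc * ∏_{j ∈ B} h j)`, `s : Fin m`,
`B : Finset (Blk f)` with `card B = d = natDegree (f s)`, are independent modulo `F`: if
`∑ q (s, B) v (s, B) ∈ F` then `z B = ∑_{s, natDegree (f s) = card B} q (s, B) d! lc (f s)` satisfies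
`z B = 0` for `2 ≤ card B`, so `q = 0` by `Adapted.ind`, and `z B` is rational for `card B = 1`, so
`q = 0` by `Adapted.ind1`. So there are functionals `ψ a` on `ℂ ⧸ (LgOf 𝕜)`, zero on `F`, with
`ψ a (v (a, B⁰ a)) = 1` and `ψ a (v (s, B)) = 0` for all other `(s, B)`, where
`B⁰ a = {⟨a, i⟩}` (apply `exists_dual` in `(ℂ ⧸ (LgOf 𝕜)) ⧸ F`). In `Theta ψ f h` only the term
`σ = 1`, `B = B⁰` survives, and it is `1`. -/
theorem exists_psi {V : Submodule 𝕜 ℂ[X]} {D : ℕ} {f : Fin m → ℂ[X]} (hf : Adapted V D m f)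
    (F : Submodule 𝕜 (ℂ ⧸ (LgOf 𝕜))) [FiniteDimensional 𝕜 F] (Z : Blk f → Submodule 𝕜 ℂ)
    (hZf : ∀ j, FiniteDimensional 𝕜 (Z j)) (hZ : ∀ j, Z j ≤ (LgOf 𝕜))
    (hdim : ∀ j, 3 * (2 ^ Fintype.card (Blk f) * (m + 1)) + finrank 𝕜 F + 9 ≤ finrank 𝕜 (Z j)) :
    ∃ (h : Blk f → ℂ) (ψ : Fin m → Dual 𝕜 (ℂ ⧸ (LgOf 𝕜))), (∀ j, h j ∈ Z j) ∧
      (∀ a, ∀ v ∈ F, ψ a v = 0) ∧ Theta ψ f h ≠ 0 := by
  classical
  set e : Option (Fin m) → ℂ := fun o => o.elim 1 (fun s => (f s).leadingCoeff) with he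
  set E : Submodule 𝕜 ℂ := Submodule.span 𝕜 (Set.range e) with hE
  have hEf : FiniteDimensional 𝕜 E := FiniteDimensional.span_of_finite 𝕜 (Set.finite_range e)
  have hEr : finrank 𝕜 E ≤ m + 1 := by
    have := finrank_range_le_card (R := 𝕜) e
    rwa [Fintype.card_option, Fintype.card_fin] at this
  have h1 : (1 : ℂ) ∈ E := Submodule.subset_span ⟨none, rfl⟩
  have hlc : ∀ s, (f s).leadingCoeff ∈ E := fun s => Submodule.subset_span ⟨some s, rfl⟩
  obtain ⟨h, hhZ, hh⟩ := exists_generic_fintype F Z hZf hZ E h1 (fun j => by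
    refine le_trans ?_ (hdim j)
    have : 2 ^ Fintype.card (Blk f) * finrank 𝕜 E ≤ 2 ^ Fintype.card (Blk f) * (m + 1) :=
      Nat.mul_le_mul_left _ hEr
    omega)
  have hind := indep_vec hf F h E hlc hh
  choose φ hφ1 hφ0 using fun a : Fin m =>
    exists_dual _ hind ⟨(a, B0 f a), card_B0 f a⟩
  refine ⟨h, fun a => (φ a).comp F.mkQ, hhZ, fun a v hv => ?_, ?_⟩
  · rw [LinearMap.comp_apply, Submodule.mkQ_apply, (Submodule.Quotient.mk_eq_zero F).2 hv,
      map_zero]
  have hval : ∀ (a s : Fin m) (B : Finset (Blk f)), B.card = (f s).natDegree →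
      ((φ a).comp F.mkQ) ((clOf 𝕜) (((f s).natDegree.factorial : ℂ) * (f s).leadingCoeff *
        ∏ j ∈ B, h j)) = if s = a ∧ B = B0 f a then 1 else 0 := by
    intro a s B hB
    rw [LinearMap.comp_apply]
    split_ifs with hsB
    · obtain ⟨rfl, rfl⟩ := hsB
      exact hφ1 s
    · have := hφ0 a ⟨(s, B), hB⟩ (fun h' => hsB (by
        have h2 := congrArg Subtype.val h'
        exact ⟨congrArg Prod.fst h2, congrArg Prod.snd h2⟩))
      exact this
  have hT : Theta (fun a => (φ a).comp F.mkQ) f h = 1 := by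
    unfold Theta
    rw [Finset.sum_eq_single (1 : Equiv.Perm (Fin m))]
    · rw [Equiv.Perm.sign_one, Finset.sum_eq_single (B0 f)]
      · rw [Finset.prod_eq_one]
        · norm_num
        · intro a _
          rw [Equiv.Perm.one_apply, hval a a (B0 f a) (card_B0 f a), if_pos ⟨rfl, rfl⟩]
      · intro B hB hne
        obtain ⟨a, ha⟩ : ∃ a, B a ≠ B0 f a := by
          by_contra hcon
          push Not at hcon
          exact hne (funext hcon)
        refine Finset.prod_eq_zero (Finset.mem_univ a) ?_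
        rw [hval a _ (B a) ((Finset.mem_filter.1 hB).2.2 a), if_neg]
        exact fun h' => ha h'.2
      · intro hn
        exact absurd (Finset.mem_filter.2 ⟨Finset.mem_univ _, biUnion_B0 f,
          fun a => by rw [Equiv.Perm.one_apply, card_B0]⟩) hn
    · intro σ _ hσ
      obtain ⟨a, ha⟩ : ∃ a, σ a ≠ a := by
        by_contra hcon
        push Not at hcon
        exact hσ (Equiv.ext hcon)
      rw [Finset.sum_eq_zero, mul_zero]
      intro B hB
      refine Finset.prod_eq_zero (Finset.mem_univ a) ?_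
      rw [hval a _ (B a) ((Finset.mem_filter.1 hB).2.2 a), if_neg]
      exact fun h' => ha h'.1
    · intro hn
      exact absurd (Finset.mem_univ _) hn
  rw [hT]
  exact one_ne_zero

end MP60829e.SK
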