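import Mathlib
import Pool.Agent.Lib.MP_60829e_nt.SK.Theta

/-! The top difference of the determinant is `Theta`. -/

open Finset Polynomial Module

namespace MP60829e.SK

open MP60829e.SE (dl sum_dl dl_map dl_poly)

variable {𝕜 : IntermediateField ℚ ℂ}

variable {J : Type} [Fintype J] [DecidableEq J] {m : ℕ}

omit [Fintype J] [DecidableEq J] in
/-- `dl` of a linear combination. -/
private theorem dl_lin {ι : Type} [Fintype ι] (c : ι → 𝕜) (g : ι → Finset J → 𝕜)
    (B : Finset J) :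
    dl (fun A => ∑ i, c i * g i A) B = ∑ i, c i * dl (g i) B := by
  unfold dl
  simp only [Finset.smul_sum, Finset.mul_sum]
  rw [Finset.sum_comm]
  refine Finset.sum_congr rfl fun i _ => Finset.sum_congr rfl fun A _ => ?_
  rw [mul_smul_comm]

/-- The differences of one factor. -/
private theorem dl_factor (φ : Dual 𝕜 (ℂ ⧸ (LgOf 𝕜))) (f : ℂ[X]) (w : ℂ) (η : J → ℂ) (B : Finset J)
    (hB : f.natDegree ≤ B.card) :
    dl (fun A => φ ((clOf 𝕜) (f.eval (w + ∑ j ∈ A, η j)))) B =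
      φ ((clOf 𝕜) ((B.card.factorial : ℂ) * f.coeff B.card * ∏ j ∈ B, η j)) := by
  have h1 := dl_map (J := J) ((φ.comp (clOf 𝕜)).toAddMonoidHom)
    (fun A => f.eval (w + ∑ j ∈ A, η j)) B
  rw [dl_poly f w η B hB] at h1
  exact h1

/-- PROOF: `Matrix.det_apply`, `dl` of a sum is the sum of the `dl`, for every `σ` use
`dl_prod_part` with `g a A = ψ a ((clOf 𝕜) ((f (σ a)).eval _))`, `d a = (f (σ a)).natDegree` (their sum is
`card J`, `Equiv.sum_comp`), `dl_map` for the linear map `ψ a ∘ (clOf 𝕜)` and `dl_poly` (which gives `0`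
for more than `d a` elements, as the coefficient vanishes, and the leading coefficient for `d a`
elements). -/
theorem dl_det (ψ : Fin m → Dual 𝕜 (ℂ ⧸ (LgOf 𝕜))) (f : Fin m → ℂ[X]) (w : ℂ) (η : J → ℂ)
    (hd : ∑ a, (f a).natDegree = Fintype.card J) :
    dl (fun A => Matrix.det (Matrix.of fun s a : Fin m =>
      ψ a ((clOf 𝕜) ((f s).eval (w + ∑ j ∈ A, η j))))) (univ : Finset J) = Theta ψ f η := by
  have h0 : (fun A : Finset J => Matrix.det (Matrix.of fun s a : Fin m =>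
      ψ a ((clOf 𝕜) ((f s).eval (w + ∑ j ∈ A, η j))))) =
      fun A => ∑ σ : Equiv.Perm (Fin m), ((Equiv.Perm.sign σ : ℤ) : 𝕜) *
        ∏ a, ψ a ((clOf 𝕜) ((f (σ a)).eval (w + ∑ j ∈ A, η j))) := by
    funext A
    rw [Matrix.det_apply']
    rfl
  rw [h0, dl_lin (fun σ : Equiv.Perm (Fin m) => ((Equiv.Perm.sign σ : ℤ) : 𝕜))
    (fun σ A => ∏ a, ψ a ((clOf 𝕜) ((f (σ a)).eval (w + ∑ j ∈ A, η j))))]
  unfold Theta
  refine Finset.sum_congr rfl fun σ _ => ?_
  congr 1
  have hs : ∑ a, (f (σ a)).natDegree = Fintype.card J := by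
    rw [← hd]
    exact Equiv.sum_comp σ (fun a => (f a).natDegree)
  rw [dl_prod_part (fun a A => ψ a ((clOf 𝕜) ((f (σ a)).eval (w + ∑ j ∈ A, η j))))
    (fun a => (f (σ a)).natDegree) hs ?_]
  · refine Finset.sum_congr rfl fun B hB => Finset.prod_congr rfl fun a _ => ?_
    have hc : (B a).card = (f (σ a)).natDegree := (Finset.mem_filter.1 hB).2.2 a
    rw [dl_factor (ψ a) (f (σ a)) w η (B a) hc.ge, hc]
    rfl
  · intro a B hB
    rw [dl_factor (ψ a) (f (σ a)) w η B hB.le, coeff_eq_zero_of_natDegree_lt hB, mul_zero,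
      zero_mul, map_zero, map_zero]

end MP60829e.SK
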