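import Mathlib
import Pool.Agent.Lib.MP_60829e_nt.SK.Theta

/-! `Theta` is multilinear. -/

open Finset Polynomial Module

namespace MP60829e.SK

open MP60829e.SE (dl)

variable {𝕜 : IntermediateField ℚ ℂ}

variable {J : Type} [Fintype J] [DecidableEq J] {m : ℕ}

private theorem thetaLin_unique (B : Fin m → Finset J) (hB : univ.biUnion B = univ)
    (hc : ∑ a, (B a).card = Fintype.card J) (j : J) :
    ∃ a, j ∈ B a ∧ ∀ a', j ∈ B a' → a' = a := by
  have h1 : ∀ i : J, 1 ≤ (univ.filter fun a => i ∈ B a).card := by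
    intro i
    have : i ∈ univ.biUnion B := by rw [hB]; exact mem_univ i
    obtain ⟨a, -, ha⟩ := mem_biUnion.1 this
    exact card_pos.2 ⟨a, mem_filter.2 ⟨mem_univ _, ha⟩⟩
  have h2 : ∑ i : J, (univ.filter fun a => i ∈ B a).card = ∑ _i : J, 1 := by
    have h3 : ∑ a, (B a).card = ∑ i : J, (univ.filter fun a => i ∈ B a).card := by
      have h4 : ∀ a, (B a).card = ∑ i : J, if i ∈ B a then 1 else 0 := by
        intro a
        simp
      have h5 : ∀ i : J, (univ.filter fun a => i ∈ B a).card =
          ∑ a, if i ∈ B a then 1 else 0 := by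
        intro i
        rw [card_filter]
      simp_rw [h4, h5]
      exact sum_comm
    rw [← h3, hc]
    simp
  have h3 : (univ.filter fun a => j ∈ B a).card = 1 :=
    ((sum_eq_sum_iff_of_le (fun i _ => h1 i)).1 h2.symm j (mem_univ j)).symm
  obtain ⟨a, ha⟩ := card_eq_one.1 h3
  refine ⟨a, ?_, fun a' ha' => ?_⟩
  · have : a ∈ univ.filter fun a => j ∈ B a := by rw [ha]; exact mem_singleton_self a
    exact (mem_filter.1 this).2
  · have : a' ∈ univ.filter fun a => j ∈ B a := mem_filter.2 ⟨mem_univ _, ha'⟩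
    rw [ha] at this
    exact mem_singleton.1 this

/-- `Theta` is linear in every variable.
PROOF: in every term the sets `B a` are disjoint (their cardinalities add up to `card J`), so `j`
lies in exactly one `B a` and exactly one factor of `∏ a` contains `η j`, linearly. -/
theorem Theta_linear (ψ : Fin m → Dual 𝕜 (ℂ ⧸ (LgOf 𝕜))) (f : Fin m → ℂ[X])
    (hd : ∑ a, (f a).natDegree = Fintype.card J) (η : J → ℂ) (j : J) :
    ∃ T : ℂ →ₗ[𝕜] 𝕜, ∀ x, T x = Theta ψ f (Function.update η j x) := by
  have key : ∀ σ : Equiv.Perm (Fin m), ∀ B ∈ (univ : Finset (Fin m → Finset J)).filter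
      (fun B => univ.biUnion B = univ ∧ ∀ a, (B a).card = (f (σ a)).natDegree),
      ∃ T : ℂ →ₗ[𝕜] 𝕜, ∀ x, T x = ∏ a, ψ a ((clOf 𝕜) (((f (σ a)).natDegree.factorial : ℂ) *
        (f (σ a)).leadingCoeff * ∏ i ∈ B a, Function.update η j x i)) := by
    intro σ B hB
    obtain ⟨-, hB1, hB2⟩ := mem_filter.1 hB
    have hc : ∑ a, (B a).card = Fintype.card J := by
      rw [← hd, ← Equiv.sum_comp σ (fun a => (f a).natDegree)]
      exact sum_congr rfl fun a _ => hB2 a
    obtain ⟨a, ha, hu⟩ := thetaLin_unique B hB1 hc j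
    refine ⟨(∏ a' ∈ univ.erase a, ψ a' ((clOf 𝕜) (((f (σ a')).natDegree.factorial : ℂ) *
      (f (σ a')).leadingCoeff * ∏ i ∈ B a', η i))) • ((ψ a) ∘ₗ ((clOf 𝕜) ∘ₗ
        (LinearMap.mulLeft 𝕜 (((f (σ a)).natDegree.factorial : ℂ) *
      (f (σ a)).leadingCoeff * ∏ i ∈ (B a).erase j, η i)))), fun x => ?_⟩
    rw [← mul_prod_erase univ _ (mem_univ a), LinearMap.smul_apply, smul_eq_mul, mul_comm]
    congr 1
    · rw [LinearMap.comp_apply, LinearMap.comp_apply, LinearMap.mulLeft_apply]
      congr 2
      rw [← mul_prod_erase (B a) _ ha, Function.update_self]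
      have h1 : ∏ i ∈ (B a).erase j, Function.update η j x i = ∏ i ∈ (B a).erase j, η i :=
        prod_congr rfl fun i hi => Function.update_of_ne (ne_of_mem_erase hi) _ _
      rw [h1]
      ring
    · refine prod_congr rfl fun a' ha' => ?_
      have h1 : ∏ i ∈ B a', Function.update η j x i = ∏ i ∈ B a', η i := by
        refine prod_congr rfl fun i hi => Function.update_of_ne ?_ _ _
        rintro rfl
        exact (ne_of_mem_erase ha') (hu a' hi)
      rw [h1]
  choose! T hT using key
  refine ⟨∑ σ : Equiv.Perm (Fin m), ((Equiv.Perm.sign σ : ℤ) : 𝕜) •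
    ∑ B ∈ (univ : Finset (Fin m → Finset J)).filter
      (fun B => univ.biUnion B = univ ∧ ∀ a, (B a).card = (f (σ a)).natDegree), T σ B,
    fun x => ?_⟩
  rw [LinearMap.sum_apply]
  unfold Theta
  refine sum_congr rfl fun σ _ => ?_
  rw [LinearMap.smul_apply, smul_eq_mul, LinearMap.sum_apply]
  congr 1
  exact sum_congr rfl fun B hB => hT σ B hB x

/-- PROOF: by `Theta_linear`, one variable after the other (`Finset.induction` on the set of the
variables which are only in the span, `Submodule.span_induction`). -/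
theorem Theta_span (ψ : Fin m → Dual 𝕜 (ℂ ⧸ (LgOf 𝕜))) (f : Fin m → ℂ[X])
    (hd : ∑ a, (f a).natDegree = Fintype.card J) (H : J → Set ℂ)
    (h0 : ∀ η : J → ℂ, (∀ j, η j ∈ H j) → Theta ψ f η = 0) (η : J → ℂ)
    (hη : ∀ j, η j ∈ Submodule.span 𝕜 (H j)) : Theta ψ f η = 0 := by
  have main : ∀ S : Finset J, ∀ η : J → ℂ, (∀ j, j ∉ S → η j ∈ H j) →
      (∀ j ∈ S, η j ∈ Submodule.span 𝕜 (H j)) → Theta ψ f η = 0 := by
    intro S
    induction S using Finset.induction_on with
    | empty => exact fun η h1 _ => h0 η fun j => h1 j (by simp)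
    | insert a S haS ih =>
      intro η h1 h2
      obtain ⟨T, hT⟩ := Theta_linear ψ f hd η a
      have h3 : Submodule.span 𝕜 (H a) ≤ LinearMap.ker T := by
        rw [Submodule.span_le]
        intro x hx
        rw [SetLike.mem_coe, LinearMap.mem_ker, hT]
        refine ih _ (fun j hj => ?_) (fun j hj => ?_)
        · rcases eq_or_ne j a with rfl | hne
          · rw [Function.update_self]; exact hx
          · rw [Function.update_of_ne hne]
            exact h1 j fun h => (mem_insert.1 h).elim hne hj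
        · have hne : j ≠ a := by rintro rfl; exact haS hj
          rw [Function.update_of_ne hne]
          exact h2 j (mem_insert_of_mem hj)
      have h4 := LinearMap.mem_ker.1 (h3 (h2 a (mem_insert_self a S)))
      rwa [hT, Function.update_eq_self] at h4
  exact main univ η (fun j hj => absurd (mem_univ j) hj) fun j _ => hη j

end MP60829e.SK
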