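import Mathlib
import Pool.Agent.Lib.MP_60829e_nt.SK.Psi
import Pool.Agent.Lib.MP_60829e_nt.SK.ThetaDet
import Pool.Agent.Lib.MP_60829e_nt.SK.ThetaLin
import Pool.Agent.Lib.MP_60829e_nt.SK.Row
import Pool.Agent.Lib.MP_60829e_nt.SK.Cst
import Pool.Agent.Lib.MP_60829e_nt.Rate.Count

/-! The bad integers contain no box of prime factors. -/

open Finset Polynomial Module

namespace MP60829e.SK

open MP60829e.SE (dl)

variable {𝕜 : IntermediateField ℚ ℂ} [Algebra.IsAlgebraic ℚ 𝕜]

open MP60829e.Rate (GridFree)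

/-- PROOF. Adapted family `f` (`exists_adapted`), `m ≤ D κ`, `card (Blk f) ≤ D m ≤ D ^ 2 κ = r`, so
there is an injection `e : Blk f → Fin r`. Suppose the box `M ∏ i, q i (c i)` is contained in
`Bad V`. Rows `j : Blk f`: `H j = rowSet (q (e j))`, `Z j = span (H j)`, of dimension `t`. Take
`h`, `ψ` from `exists_psi` with `F = cstF V`. For `η j = log q (e j) (a j) - log q (e j) 0 ∈ H j` and
`w = log M + ∑ i, log q i 0` the numbers `w + ∑_{j ∈ A} η j` are `log` of elements of the box (choice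
`c i = a j` if `i = e j`, `j ∈ A`, and `c i = 0` otherwise), so the determinants vanish
(`bad_det`), so `Theta ψ f η = 0` (`dl_det`); by `Theta_span` `Theta ψ f h = 0`, a contradiction. -/
theorem gridFree_bad (D κ : ℕ) (V : Submodule 𝕜 ℂ[X]) [FiniteDimensional 𝕜 V]
    (hκ : finrank 𝕜 V ≤ κ) (hD : ∀ f ∈ V, f.natDegree ≤ D) (r t : ℕ) (hr : D ^ 2 * κ ≤ r)
    (ht : 3 * (2 ^ (D ^ 2 * κ) * (D * κ + 1)) + κ + 9 ≤ t) : GridFree r (t + 1) (Bad V) := by
  classical
  intro M hM q hq hinj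
  by_contra hcon
  push Not at hcon
  obtain ⟨m, f, hm, hf⟩ := exists_adapted D V inferInstance hD
  have hmκ : m ≤ D * κ := hm.trans (Nat.mul_le_mul_left _ hκ)
  have hcard : Fintype.card (Blk f) = ∑ a, (f a).natDegree := by
    rw [Fintype.card_sigma]
    exact Finset.sum_congr rfl fun a _ => Fintype.card_fin _
  have hcardr : Fintype.card (Blk f) ≤ D ^ 2 * κ := by
    rw [hcard]
    calc ∑ a, (f a).natDegree ≤ ∑ _a : Fin m, D := Finset.sum_le_sum fun a _ => (hf.deg a).2
      _ = m * D := by rw [Finset.sum_const, Finset.card_univ, Fintype.card_fin, smul_eq_mul]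
      _ ≤ (D * κ) * D := Nat.mul_le_mul_right _ hmκ
      _ = D ^ 2 * κ := by ring
  obtain ⟨e⟩ : Nonempty (Blk f ↪ Fin r) :=
    Function.Embedding.nonempty_of_card_le (by rw [Fintype.card_fin]; exact hcardr.trans hr)
  set H : Blk f → Set ℂ := fun j => rowSet (q (e j)) with hH
  have hfin : ∀ j, FiniteDimensional 𝕜 (Submodule.span 𝕜 (H j)) := fun j =>
    FiniteDimensional.span_of_finite 𝕜 (Set.finite_range _)
  obtain ⟨hFf, hFr⟩ := finrank_cstF V
  obtain ⟨h, ψ, hh, hψ, hT⟩ := exists_psi hf (cstF V) (fun j => Submodule.span 𝕜 (H j)) hfin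
    (fun j => row_le _) (fun j => by
      rw [hH, finrank_row (q (e j)) (hq (e j)) (hinj (e j))]
      refine le_trans ?_ ht
      have h1 : 2 ^ Fintype.card (Blk f) * (m + 1) ≤ 2 ^ (D ^ 2 * κ) * (D * κ + 1) :=
        Nat.mul_le_mul (Nat.pow_le_pow_right two_pos hcardr) (by omega)
      have h2 : finrank 𝕜 (cstF V) ≤ κ := hFr.trans hκ
      omega)
  apply hT
  refine Theta_span ψ f hcard.symm H ?_ h hh
  intro η hη
  choose a ha using hη
  have ha' : ∀ j, η j = ((Real.log (q (e j) (a j)) : ℝ) : ℂ) - ((Real.log (q (e j) 0) : ℝ) : ℂ) :=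
    fun j => (ha j).symm
  set w : ℂ := ((Real.log M : ℝ) : ℂ) + ∑ i, ((Real.log (q i 0) : ℝ) : ℂ) with hw
  rw [← dl_det ψ f w η hcard.symm]
  have hzero : (fun A : Finset (Blk f) => Matrix.det (Matrix.of fun s a : Fin m =>
      ψ a ((clOf 𝕜) ((f s).eval (w + ∑ j ∈ A, η j))))) = fun _ => 0 := by
    funext A
    -- the element of the box
    set c : Fin r → Fin (t + 1) := fun i => if hi : ∃ j ∈ A, e j = i then a hi.choose else 0
      with hc
    have hcj : ∀ j ∈ A, c (e j) = a j := by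
      intro j hj
      have hex : ∃ j' ∈ A, e j' = e j := ⟨j, hj, rfl⟩
      have h1 : c (e j) = a hex.choose := by
        rw [hc]
        exact dif_pos hex
      rw [h1]
      congr 1
      exact e.injective hex.choose_spec.2
    have hcn : ∀ i, (¬ ∃ j ∈ A, e j = i) → c i = 0 := by
      intro i hi
      rw [hc]
      exact dif_neg hi
    have hlog : ((Real.log ((M * ∏ i, q i (c i) : ℕ) : ℝ) : ℝ) : ℂ) = w + ∑ j ∈ A, η j := by
      have hpos : ∀ i (b : Fin (t + 1)), ((q i b : ℕ) : ℝ) ≠ 0 := fun i b => by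
        exact_mod_cast (hq i b).ne_zero
      have hM0 : (M : ℝ) ≠ 0 := by
        have : M ≠ 0 := by omega
        exact_mod_cast this
      have h1 : Real.log ((M * ∏ i, q i (c i) : ℕ) : ℝ) =
          Real.log M + ∑ i, Real.log (q i (c i)) := by
        push_cast
        rw [Real.log_mul hM0 (Finset.prod_ne_zero_iff.mpr fun i _ => hpos i _),
          Real.log_prod (fun i _ => hpos i _)]
      rw [h1, hw, Complex.ofReal_add, Complex.ofReal_sum]
      have h2 : ∑ i, ((Real.log (q i (c i)) : ℝ) : ℂ) = ∑ i, ((Real.log (q i 0) : ℝ) : ℂ) +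
          ∑ i, (((Real.log (q i (c i)) : ℝ) : ℂ) - ((Real.log (q i 0) : ℝ) : ℂ)) := by
        rw [Finset.sum_sub_distrib]
        ring
      have h3 : ∑ i, (((Real.log (q i (c i)) : ℝ) : ℂ) - ((Real.log (q i 0) : ℝ) : ℂ)) =
          ∑ j ∈ A, η j := by
        have h4 : ∑ i ∈ A.map e, (((Real.log (q i (c i)) : ℝ) : ℂ) -
            ((Real.log (q i 0) : ℝ) : ℂ)) =
            ∑ i, (((Real.log (q i (c i)) : ℝ) : ℂ) - ((Real.log (q i 0) : ℝ) : ℂ)) := by
          refine Finset.sum_subset (Finset.subset_univ _) ?_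
          intro i _ hi
          rw [hcn i, sub_self]
          rintro ⟨j, hj, rfl⟩
          exact hi (Finset.mem_map_of_mem e hj)
        rw [← h4, Finset.sum_map]
        refine Finset.sum_congr rfl fun j hj => ?_
        rw [hcj j hj, ha' j]
      rw [h2, h3, add_assoc]
    have h5 := bad_det hf ψ hψ (M * ∏ i, q i (c i)) (hcon c)
    rw [hlog] at h5
    exact h5
  rw [hzero]
  simp [dl]

end MP60829e.SK
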