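import Mathlib
import Pool.Agent.Lib.MP_60829e_nt.SK.IndDefs

/-! The derived space. -/

open Finset MvPolynomial Module

namespace MP60829e.SK

variable {𝕜 : IntermediateField ℚ ℂ}

private theorem fin_iSup {M : Type*} [AddCommGroup M] [Module 𝕜 M] (s : Finset ℕ)
    (W : ℕ → Submodule 𝕜 M) (c : ℕ) (hW : ∀ k, FiniteDimensional 𝕜 (W k))
    (hc : ∀ k, finrank 𝕜 (W k) ≤ c) :
    FiniteDimensional 𝕜 (⨆ k ∈ s, W k : Submodule 𝕜 M) ∧
      finrank 𝕜 (⨆ k ∈ s, W k : Submodule 𝕜 M) ≤ s.card * c := by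
  classical
  induction s using Finset.induction_on with
  | empty =>
    have e : (⨆ k ∈ (∅ : Finset ℕ), W k : Submodule 𝕜 M) = ⊥ := by simp
    rw [e]
    exact ⟨inferInstance, by rw [finrank_bot]; exact Nat.zero_le _⟩
  | insert a s ha ih =>
    obtain ⟨h1, h2⟩ := ih
    rw [Finset.iSup_insert, Finset.card_insert_of_notMem ha]
    have := hW a
    refine ⟨inferInstance, ?_⟩
    have h3 := Submodule.finrank_add_le_finrank_add_finrank (W a) (⨆ k ∈ s, W k)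
    have h4 := hc a
    calc finrank 𝕜 (W a ⊔ ⨆ k ∈ s, W k : Submodule 𝕜 M)
        ≤ finrank 𝕜 (W a) + finrank 𝕜 (⨆ k ∈ s, W k : Submodule 𝕜 M) := h3
      _ ≤ c + s.card * c := Nat.add_le_add h4 h2
      _ = (s.card + 1) * c := by ring

/-- PROOF: `finrank` of a sum is at most the sum of the `finrank`s, `finrank` of an image is at most
`finrank V`. -/
theorem finrank_derV {n : ℕ} (V : Submodule 𝕜 (MvPolynomial (Fin (n + 1)) ℂ))
    [FiniteDimensional 𝕜 V] (D : ℕ) :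
    FiniteDimensional 𝕜 (derV V D) ∧ finrank 𝕜 (derV V D) ≤ (2 * D + 1) * finrank 𝕜 V := by
  obtain ⟨h1, h2⟩ := fin_iSup (Finset.Icc 1 D)
    (fun k => V.map (mulCOf 𝕜 n ((Real.log 2 : ℝ) : ℂ) ∘ₗ cfOf 𝕜 n k) ⊔
      V.map (mulCOf 𝕜 n ((Real.log 3 : ℝ) : ℂ) ∘ₗ cfOf 𝕜 n k)) (2 * finrank 𝕜 V)
    (fun k => inferInstance) (fun k => by
      have h3 := Submodule.finrank_add_le_finrank_add_finrank
        (V.map (mulCOf 𝕜 n ((Real.log 2 : ℝ) : ℂ) ∘ₗ cfOf 𝕜 n k))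
        (V.map (mulCOf 𝕜 n ((Real.log 3 : ℝ) : ℂ) ∘ₗ cfOf 𝕜 n k))
      have h4 := Submodule.finrank_map_le (mulCOf 𝕜 n ((Real.log 2 : ℝ) : ℂ) ∘ₗ cfOf 𝕜 n k) V
      have h5 := Submodule.finrank_map_le (mulCOf 𝕜 n ((Real.log 3 : ℝ) : ℂ) ∘ₗ cfOf 𝕜 n k) V
      omega)
  rw [Nat.card_Icc, Nat.add_sub_cancel] at h2
  unfold derV
  refine ⟨inferInstance, ?_⟩
  have h3 := Submodule.finrank_add_le_finrank_add_finrank (V.map (cfOf 𝕜 n 0))
    (⨆ k ∈ Finset.Icc 1 D, (V.map (mulCOf 𝕜 n ((Real.log 2 : ℝ) : ℂ) ∘ₗ cfOf 𝕜 n k) ⊔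
      V.map (mulCOf 𝕜 n ((Real.log 3 : ℝ) : ℂ) ∘ₗ cfOf 𝕜 n k)))
  have h4 := Submodule.finrank_map_le (cfOf 𝕜 n 0) V
  refine h3.trans ?_
  calc _ ≤ finrank 𝕜 V + D * (2 * finrank 𝕜 V) := Nat.add_le_add h4 h2
    _ = (2 * D + 1) * finrank 𝕜 V := by ring

/-- PROOF: `totalDegree_coeff_finSuccEquiv_add_le`; the polynomials of total degree at most `D` form
a subspace. -/
theorem totalDegree_derV {n : ℕ} (V : Submodule 𝕜 (MvPolynomial (Fin (n + 1)) ℂ)) (D D' : ℕ)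
    (hD : ∀ f ∈ V, f.totalDegree ≤ D) : ∀ g ∈ derV V D', g.totalDegree ≤ D := by
  have hcf : ∀ (k : ℕ) (f : MvPolynomial (Fin (n + 1)) ℂ), (cfOf 𝕜 n k f).totalDegree ≤
      f.totalDegree := by
    intro k f
    show ((finSuccEquiv ℂ n f).coeff k).totalDegree ≤ _
    by_cases h : (finSuccEquiv ℂ n f).coeff k = 0
    · rw [h, totalDegree_zero]
      exact Nat.zero_le _
    · have := totalDegree_coeff_finSuccEquiv_add_le f k h
      omega
  set T : Submodule 𝕜 (MvPolynomial (Fin n) ℂ) :=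
    (restrictTotalDegree (Fin n) ℂ D).restrictScalars 𝕜 with hT
  have hmemT : ∀ g, g ∈ T ↔ g.totalDegree ≤ D := by
    intro g
    rw [hT, Submodule.restrictScalars_mem, mem_restrictTotalDegree]
  have hle : derV V D' ≤ T := by
    unfold derV
    refine sup_le ?_ (iSup₂_le fun k _ => sup_le ?_ ?_)
    · rintro _ ⟨f, hf, rfl⟩
      rw [hmemT]
      exact (hcf 0 f).trans (hD f hf)
    · rintro _ ⟨f, hf, rfl⟩
      rw [hmemT]
      exact (totalDegree_smul_le _ _).trans ((hcf k f).trans (hD f hf))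
    · rintro _ ⟨f, hf, rfl⟩
      rw [hmemT]
      exact (totalDegree_smul_le _ _).trans ((hcf k f).trans (hD f hf))
  intro g hg
  exact (hmemT g).mp (hle hg)

end MP60829e.SK
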