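import Mathlib
import Pool.Agent.Lib.MP_60829e_nt.SK.IndDefs
import Pool.Agent.Lib.MP_60829e_nt.SK.IndDer
import Pool.Agent.Lib.MP_60829e_nt.SK.IndGood
import Pool.Agent.Lib.MP_60829e_nt.SK.Grid1
import Pool.Agent.Lib.MP_60829e_nt.SE.Count1

/-! From one variable to several variables. -/

open Finset MvPolynomial Module

namespace MP60829e.SK

open MP60829e.SE (count_gridFree)

variable {𝕜 : IntermediateField ℚ ℂ} [Algebra.IsAlgebraic ℚ 𝕜]

private theorem badN_subset {n : ℕ} (V : Submodule 𝕜 (MvPolynomial (Fin n) ℂ)) (B : ℕ) :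
    BadN V B ⊆ (Fintype.piFinset (fun _ : Fin n => Icc 1 B) : Set (Fin n → ℕ)) := by
  intro b hb
  rw [mem_coe, Fintype.mem_piFinset]
  intro i
  rw [mem_Icc]
  exact hb.1 i

private theorem badN_finite {n : ℕ} (V : Submodule 𝕜 (MvPolynomial (Fin n) ℂ)) (B : ℕ) :
    (BadN V B).Finite :=
  (Finset.finite_toSet _).subset (badN_subset V B)

/-- PROOF: by `good_step` every `b` in `BadN V B` has `Fin.tail b ∈ BadN (derV V D) B` (at most
`B * ncard` such `b`) or `b 0` bad for `Fin.tail b` (at most `B ^ n * c` such `b`). -/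
theorem card_step {n D : ℕ} (V : Submodule 𝕜 (MvPolynomial (Fin (n + 1)) ℂ))
    (hD : ∀ f ∈ V, f.totalDegree ≤ D) (B : ℕ) (c : ℝ)
    (hc : ∀ w : Fin n → ℂ, ({b : ℕ | 1 ≤ b ∧ b ≤ B ∧ b ∈ Bad (V.map (spOf 𝕜 w))}.ncard : ℝ) ≤ c) :
    ((BadN V B).ncard : ℝ) ≤ B * (BadN (derV V D) B).ncard + B ^ n * c := by
  classical
  have hc0 : 0 ≤ c := le_trans (Nat.cast_nonneg _) (hc 0)
  set cube : Finset (Fin (n + 1) → ℕ) := Fintype.piFinset (fun _ => Icc 1 B) with hcube
  set S1 : Finset (Fin (n + 1) → ℕ) := cube.filter (fun b => Fin.tail b ∈ BadN (derV V D) B)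
    with hS1
  set S2 : Finset (Fin (n + 1) → ℕ) :=
    cube.filter (fun b => b 0 ∈ Bad (V.map (spOf 𝕜 (lg (Fin.tail b))))) with hS2
  have hsub : BadN V B ⊆ ((S1 ∪ S2 : Finset (Fin (n + 1) → ℕ)) : Set (Fin (n + 1) → ℕ)) := by
    intro b hb
    have hbc : b ∈ cube := badN_subset V B hb
    rw [mem_coe, mem_union, hS1, hS2, mem_filter, mem_filter]
    by_contra hcon
    push Not at hcon
    have h1 := hcon.1 hbc
    have h2 := hcon.2 hbc
    obtain ⟨hb1, f, hf, hfe, hft⟩ := hb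
    refine hft (good_step V hD b ?_ h2 f hf hfe)
    intro g hg hge
    by_contra hgt
    exact h1 ⟨fun i => hb1 i.succ, g, hg, hge, hgt⟩
  have hcard : ((BadN V B).ncard : ℝ) ≤ (S1.card : ℝ) + S2.card := by
    have h1 : (BadN V B).ncard ≤ (S1 ∪ S2).card := by
      rw [← Set.ncard_coe_finset]
      exact Set.ncard_le_ncard hsub (Finset.finite_toSet _)
    exact_mod_cast h1.trans (card_union_le _ _)
  have h1 : (S1.card : ℝ) ≤ B * (BadN (derV V D) B).ncard := by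
    have hfin := badN_finite (derV V D) B
    have h2 : S1.card ≤ (Icc 1 B ×ˢ hfin.toFinset).card := by
      refine Finset.card_le_card_of_injOn (fun b => (b 0, Fin.tail b)) ?_ ?_
      · intro b hb
        rw [mem_coe, hS1, mem_filter, hcube, Fintype.mem_piFinset] at hb
        rw [mem_coe, mem_product]
        exact ⟨hb.1 0, hfin.mem_toFinset.mpr hb.2⟩
      · intro b _ b' _ h
        have h3 : b 0 = b' 0 := (Prod.mk.inj h).1
        have h4 : Fin.tail b = Fin.tail b' := (Prod.mk.inj h).2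
        rw [← Fin.cons_self_tail b, ← Fin.cons_self_tail b', h3, h4]
    rw [card_product, Nat.card_Icc, Nat.add_sub_cancel, ← Set.ncard_eq_toFinset_card _ hfin] at h2
    exact_mod_cast h2
  have h2 : (S2.card : ℝ) ≤ B ^ n * c := by
    have htail : ∀ b : Fin (n + 1) → ℕ, b ∘ (0 : Fin (n + 1)).succAbove = Fin.tail b := by
      intro b
      funext j
      simp [Fin.tail]
    refine MP60829e.Rate.card_fiber n 0 B S2 ?_ c
      (fun b' => (Icc 1 B).filter (fun x => x ∈ Bad (V.map (spOf 𝕜 (lg b'))))) ?_ ?_ hc0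
    · intro b hb j
      rw [hS2, mem_filter, hcube, Fintype.mem_piFinset] at hb
      exact mem_Icc.mp (hb.1 j)
    · intro b hb
      rw [hS2, mem_filter, hcube, Fintype.mem_piFinset] at hb
      rw [htail, mem_filter]
      exact ⟨hb.1 0, hb.2⟩
    · intro b hb
      rw [htail]
      have h3 := hc (lg (Fin.tail b))
      have h4 : {x : ℕ | 1 ≤ x ∧ x ≤ B ∧ x ∈ Bad (V.map (spOf 𝕜 (lg (Fin.tail b))))} =
          (((Icc 1 B).filter (fun x => x ∈ Bad (V.map (spOf 𝕜 (lg (Fin.tail b)))))) : Set ℕ) := by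
        ext x
        rw [mem_coe, mem_filter, mem_Icc]
        exact ⟨fun h => ⟨⟨h.1, h.2.1⟩, h.2.2⟩, fun h => ⟨h.1.1, h.1.2, h.2⟩⟩
      rw [h4, Set.ncard_coe_finset] at h3
      exact h3
  linarith

private theorem triv_zero (f : MvPolynomial (Fin 0) ℂ) : TrivNOf 𝕜 f := by
  refine ⟨coeff 0 f, fun i => i.elim0, ?_⟩
  rw [Finset.univ_eq_empty, Finset.sum_empty, add_zero]
  exact MvPolynomial.eq_C_of_isEmpty f

/-- PROOF: induction on `n` with `card_step`, `gridFree_bad` (`r = D ^ 2 κ + 1`), `count_gridFree`,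
`finrank_derV`, `totalDegree_derV`. For `n = 0` all polynomials are constant, `BadN V B = ∅`. -/
theorem main (D : ℕ) (n : ℕ) : ∀ κ : ℕ, ∃ C : ℕ, ∀ (𝕜 : IntermediateField ℚ ℂ)
    (_ : Algebra.IsAlgebraic ℚ 𝕜) (V : Submodule 𝕜 (MvPolynomial (Fin n) ℂ)),
    FiniteDimensional 𝕜 V → finrank 𝕜 V ≤ κ → (∀ f ∈ V, f.totalDegree ≤ D) → ∀ B : ℕ, 16 ≤ B →
      ((BadN V B).ncard : ℝ) ≤ C * Real.log (Real.log B) ^ C / Real.log B * B ^ n := by
  induction n with
  | zero =>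
    intro κ
    refine ⟨0, fun 𝕜 _ V _ _ _ B hB => ?_⟩
    have h1 : BadN V B = ∅ := by
      rw [Set.eq_empty_iff_forall_notMem]
      rintro b ⟨_, f, _, _, hf⟩
      exact hf (triv_zero f)
    rw [h1, Set.ncard_empty]
    simp
  | succ n ih =>
    intro κ
    obtain ⟨C1, hC1⟩ := ih ((2 * D + 1) * κ)
    set t : ℕ := 3 * (2 ^ (D ^ 2 * κ) * (D * κ + 1)) + κ + 9 with ht
    obtain ⟨C2, hC2⟩ := count_gridFree (D ^ 2 * κ + 1) (t + 1) (by omega) (by omega)
    refine ⟨C1 + C2, fun 𝕜 h𝕜 V hV hκ hD B hB => ?_⟩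
    obtain ⟨hfd, hfr⟩ := finrank_derV V D
    have h1 := hC1 𝕜 h𝕜 (derV V D) hfd (hfr.trans (Nat.mul_le_mul_left _ hκ))
      (totalDegree_derV V D D hD) B hB
    have hL := MP60829e.Rate.log_ge B hB
    have hl := MP60829e.Rate.loglog_ge B hB
    have he := Real.exp_one_gt_d9
    have hL0 : 0 < Real.log B := by linarith
    have hB0 : (0 : ℝ) < B := by exact_mod_cast (by omega : 0 < B)
    have h2 : ∀ w : Fin n → ℂ,
        ({b : ℕ | 1 ≤ b ∧ b ≤ B ∧ b ∈ Bad (V.map (spOf 𝕜 w))}.ncard : ℝ) ≤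
          C2 * Real.log (Real.log B) ^ C2 / Real.log B * B := by
      intro w
      have h3 : finrank 𝕜 (V.map (spOf 𝕜 w)) ≤ κ := (Submodule.finrank_map_le (spOf 𝕜 w) V).trans hκ
      have h4 : ∀ f ∈ V.map (spOf 𝕜 w), f.natDegree ≤ D := by
        rintro f ⟨g, hg, rfl⟩
        exact (sp_natDegree w g).trans (hD g hg)
      exact hC2 _ (gridFree_bad D κ (V.map (spOf 𝕜 w)) h3 h4 (D ^ 2 * κ + 1) t (by omega) le_rfl) B hB
    have h5 := card_step V hD B _ h2
    refine h5.trans ?_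
    set l := Real.log (Real.log B) with hldef
    set L := Real.log B with hLdef
    have e1 : (C1 : ℝ) * l ^ C1 ≤ C1 * l ^ (C1 + C2) :=
      mul_le_mul_of_nonneg_left (pow_le_pow_right₀ hl (by omega)) (Nat.cast_nonneg _)
    have e2 : (C2 : ℝ) * l ^ C2 ≤ C2 * l ^ (C1 + C2) :=
      mul_le_mul_of_nonneg_left (pow_le_pow_right₀ hl (by omega)) (Nat.cast_nonneg _)
    have e3 : (C1 : ℝ) * l ^ C1 + C2 * l ^ C2 ≤ ((C1 + C2 : ℕ) : ℝ) * l ^ (C1 + C2) := by
      push_cast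
      linarith
    calc (B : ℝ) * ((BadN (derV V D) B).ncard : ℝ) + B ^ n * (C2 * l ^ C2 / L * B)
        ≤ B * (C1 * l ^ C1 / L * B ^ n) + B ^ n * (C2 * l ^ C2 / L * B) := by
          have := mul_le_mul_of_nonneg_left h1 hB0.le
          linarith
      _ = (C1 * l ^ C1 + C2 * l ^ C2) / L * B ^ (n + 1) := by ring
      _ ≤ ((C1 + C2 : ℕ) : ℝ) * l ^ (C1 + C2) / L * B ^ (n + 1) := by
          refine mul_le_mul_of_nonneg_right ?_ (by positivity)
          exact div_le_div_of_nonneg_right e3 hL0.le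

end MP60829e.SK
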